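import Pool.Agent.Helper94.PB.VEXT
import Pool.Agent.Helper76.PB.GoalsV
import Pool.Agent.Helper32.PP.BNOR
import Pool.Agent.Helper42.PP1.NRM
import Pool.Agent.Helper90.LE.CYC
import Pool.Agent.Helper77.PPO.HYPN
import Pool.Agent.Helper35.RD.RSP

/-!
# Project B (MP_fc6b1e_nt): existence of `TauB` with `NrmInd` for `χ₀ = 1` (`M_EXT1`)
-/

set_option autoImplicit false

namespace Pool.Agent.Helper94.PB

open NumberField Polynomial Module IsDedekindDomain
open Pool.Agent.Helper51.SigLeo (IwasawaLog)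
open Pool.Agent.Helper51.RP Pool.Agent.Helper42.RD Pool.Agent.Helper42.PP
open Pool.Agent.Helper42.PP1 (SitW)
open Pool.Agent.Helper42.PB Pool.Agent.Helper76.PB Pool.Agent.Helper11.PB
open Pool.Agent.Helper40.RS (bel gw val_smul bel_smul)
open Pool.Agent.Helper40.RD (bel_of_above ordW valW)
open Pool.Agent.Helper32.PP (mem_up prod_lt prod_le' val_gal bel_gw norm_coe e_ne)
open Pool.Agent.Helper94.PP1 (up_self natDegree_one' pol_one)

section nrm

variable {p : ℕ} {K E F : Type} [Field K] [NumberField K] [Field E] [NumberField E] [Field F]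
  [NumberField F] [Algebra K E] [Algebra K F] [Algebra E F] [IsScalarTower K E F] [IsGalois E F]

/-- Norms of elements with `LocS`. -/
theorem locS_nrm (S : Finset (HeightOneSpectrum (𝓞 K))) {x : Fˣ}
    (h : LocS p (up F S) x) : LocS p (up E S) (nrm E F x) := by
  obtain ⟨y, hy⟩ := h
  refine ⟨nrm E F y, fun w hw => ?_⟩
  obtain ⟨W, hW⟩ := exists_bel (M₁ := F) w
  have hWS : W ∈ up F S := by
    rw [mem_up, ← bel_bel (M := E) W, hW]
    exact (mem_up S w).1 hw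
  have hgS : ∀ g : F ≃ₐ[E] F, gw g W ∈ up F S := by
    intro g
    rw [mem_up, ← bel_bel (M := E) (gw g W), bel_gw, bel_bel]
    exact (mem_up S W).1 hWS
  have e1 : ((nrm E F x : Eˣ) : E) * ((nrm E F y : Eˣ) : E) ^ p =
      ((nrm E F (x * y ^ p) : Eˣ) : E) := by
    rw [map_mul, map_pow, Units.val_mul, Units.val_pow_eq_pow_val]
  have e2 : algebraMap E F (((nrm E F x : Eˣ) : E) * ((nrm E F y : Eˣ) : E) ^ p - 1) =
      ∏ g : F ≃ₐ[E] F, g ((x * y ^ p : Fˣ) : F) - 1 := by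
    rw [map_sub, map_one, e1, norm_coe]
  have hval : ∀ (g : F ≃ₐ[E] F), W.valuation F (g ((x * y ^ p : Fˣ) : F) - 1) < 1 ∧
      W.valuation F (g ((x * y ^ p : Fˣ) : F) - 1) ≤ W.valuation F (p : F) ^ 3 := by
    intro g
    have h1 := hy _ (hgS g⁻¹)
    have h2 := val_gal g W ((x : F) * (y : F) ^ p - 1)
    have h3 := val_gal g W (p : F)
    rw [map_natCast] at h3
    rw [map_sub, map_one] at h2
    have e3 : ((x * y ^ p : Fˣ) : F) = (x : F) * (y : F) ^ p := by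
      rw [Units.val_mul, Units.val_pow_eq_pow_val]
    rw [e3, h2, h3]
    exact h1
  have hp1 : W.valuation F (p : F) ^ 3 ≤ 1 := by
    refine pow_le_one₀ zero_le ?_
    have := W.valuation_le_one (K := F) (p : 𝓞 F)
    simpa using this
  have h1 := prod_lt W Finset.univ (fun g : F ≃ₐ[E] F => g ((x * y ^ p : Fˣ) : F))
    (fun g _ => (hval g).1)
  have h2 := prod_le' W Finset.univ (fun g : F ≃ₐ[E] F => g ((x * y ^ p : Fˣ) : F)) _ hp1
    (fun g _ => (hval g).2)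
  rw [← e2, valW (M := E) W, hW] at h1 h2
  have he : w.asIdeal.ramificationIdx' W.asIdeal ≠ 0 := by
    have := e_ne (E := E) W
    rwa [hW] at this
  have h3 : W.valuation F (p : F) = w.valuation E (p : E) ^ w.asIdeal.ramificationIdx' W.asIdeal := by
    have h4 := valW (M := E) W (p : E)
    rwa [map_natCast, hW] at h4
  rw [h3, ← pow_mul, mul_comm _ 3, pow_mul] at h2
  refine ⟨?_, (pow_le_pow_iff_left₀ zero_le zero_le he).1 h2⟩
  by_contra hcon
  rw [not_lt] at hcon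
  exact absurd h1 (not_lt.2 (one_le_pow_of_one_le' hcon _))

end nrm

section drop

variable {p : ℕ} [Fact p.Prime] {k : Type} [NormedField k] {K M K₁ M₁ : Type} [Field K]
    [NumberField K] [Field M] [NumberField M] [Field K₁] [NumberField K₁] [Field M₁]
    [NumberField M₁] [Algebra K M] [Algebra K K₁] [Algebra K M₁] [Algebra M M₁] [Algebra K₁ M₁]
    {ε : K₁} {δ : M ≃ₐ[K] M} {P : (ZMod p)[X]} {B : Base p K M K₁ M₁ ε δ P} {M₂ : Type}
    [Field M₂] [NumberField M₂] [Algebra K M₂] [Algebra M M₂] [Algebra K₁ M₂] {a₀ : M₂ˣ}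
    {L : IwasawaLog p k} {T : Set (K →+* k)} {aτ : K₁ˣ}

theorem sum_insert {n : ℕ} (j₀ : Fin (n + 1)) (c : Fin n → AdjoinRoot P)
    (h : Fin (n + 1) → AdjoinRoot P) :
    ∑ j, (j₀.insertNth (0 : AdjoinRoot P) c : Fin (n + 1) → AdjoinRoot P) j * h j =
      ∑ j, c j * h (j₀.succAbove j) := by
  rw [Fin.sum_univ_succAbove _ j₀, Fin.insertNth_apply_same, zero_mul, zero_add]
  refine Finset.sum_congr rfl fun j _ => ?_
  rw [Fin.insertNth_apply_succAbove]

theorem insert_zero {n : ℕ} (j₀ : Fin (n + 1)) (c : Fin n → AdjoinRoot P)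
    (h : (j₀.insertNth (0 : AdjoinRoot P) c : Fin (n + 1) → AdjoinRoot P) = 0) : c = 0 := by
  funext j
  have h1 := congrFun h (j₀.succAbove j)
  rwa [Fin.insertNth_apply_succAbove] at h1

/-- Removing one functional. -/
theorem drop {n : ℕ} (E : TauB (n + 1) B a₀ L T aτ) (j₀ : Fin (n + 1))
    (hj : ∀ β : Fin (n + 1) → AdjoinRoot P, (∀ i, ∑ j, β j * E.h j (B.u i) = 0) →
      (∀ x : M₂ˣ, ∑ j, β j * E.h j (nrm M M₂ x) = 0) → β j₀ = 0 → β = 0) :
    ∃ E' : TauB n B a₀ L T aτ, NrmInd E'.toTauF M₂ := by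
  refine ⟨⟨⟨fun j => E.h (j₀.succAbove j), fun j => E.hP _, fun j => E.hL _, ?_⟩,
    fun j => E.hS _⟩, ?_⟩
  · intro c hc
    refine insert_zero j₀ c (E.hI _ fun x => ?_)
    rw [sum_insert j₀ c (fun j => E.h j x)]
    exact hc x
  · intro c h1 h2
    refine insert_zero j₀ c (hj _ (fun i => ?_) (fun x => ?_) ?_)
    · rw [sum_insert j₀ c (fun j => E.h j (B.u i))]
      exact h1 i
    · rw [sum_insert j₀ c (fun j => E.h j (nrm M M₂ x))]
      exact h2 x
    · rw [Fin.insertNth_apply_same]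

end drop

section one

variable {p : ℕ} [hp : Fact p.Prime] {k : Type} [NormedField k] [NormedAlgebra ℚ_[p] k]
    [IsUltrametricDist k] [CompleteSpace k] {K K₁ J M₂ : Type} [Field K]
    [NumberField K] [Field K₁] [NumberField K₁] [Field J] [NumberField J] [Field M₂]
    [NumberField M₂] [Algebra K K₁] [Algebra K J] [Algebra K M₂] [Algebra K₁ M₂] [Algebra J M₂]
    {ε : K₁} {a₀ : M₂ˣ}

/-- Existence of `TauB` for `χ₀ = 1`, with `|S| + |T|` conditions. -/
theorem extB1 (hk : Nonempty (AlgebraicClosure ℚ →+* k))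
    (hB : SitBs p K K K₁ K₁ J M₂ ε (1 : K ≃ₐ[K] K) (X - 1) a₀) (L : IwasawaLog p k)
    (T : Set (K →+* k)) (B : Base p K K K₁ K₁ ε (1 : K ≃ₐ[K] K) (X - 1)) (a : K₁ˣ)
    (haO : OmType p K ε (a : K₁))
    (hap : ∀ Q : HeightOneSpectrum (𝓞 K₁), Q.valuation K₁ (p : K₁) < 1 →
      (p : ℤ) ∣ ordv Q (a : K₁)) : Nonempty (TauB (B.S.card + T.ncard) B a₀ L T a) := by
  refine extB hB L T B a haO hap _ fun 𝔪₀ v hv => ?_
  obtain ⟨G, hG, hGp, -⟩ := Pool.Agent.Helper90.RP.s_sub p k L K K (1 : K ≃ₐ[K] K) T (up K B.S)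
    𝔪₀ v hv
  obtain ⟨F, hFc, hF⟩ := Pool.Agent.Helper96.LE.l_lob Pool.Agent.Helper16.LE.l_log p k hk L K T
    (up K B.S) 𝔪₀ v hv
  refine ⟨F, ?_, fun x _ => ?_, ?_⟩
  · rw [hFc, natDegree_one', one_mul, up_self, Set.ncard_coe_finset]
  · rw [← hG, pol_one]
    exact hGp _ ⟨x, rfl⟩
  · rw [Pool.Agent.Helper58.LE.above_self]
    exact hF

/-- A combination of the functionals as a functional on `K₁ˣ`. -/
theorem kil_comb (hB : SitB p K K K₁ K₁ J M₂ ε (1 : K ≃ₐ[K] K) (X - 1) a₀)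
    (B : Base p K K K₁ K₁ ε (1 : K ≃ₐ[K] K) (X - 1)) {n : ℕ} (E : TauF n B)
    (lam : AdjoinRoot (X - 1 : (ZMod p)[X]) →+* ZMod p)
    (β : Fin n → AdjoinRoot (X - 1 : (ZMod p)[X])) (hβ : ∀ i, ∑ j, β j * E.h j (B.u i) = 0) :
    Kil p (up K₁ B.S) (fun x => lam (∑ j, β j * E.h j (nrm K K₁ x))) := by
  have := hB.sit.st2
  have := hB.sit.gM
  have := hB.sit.gK
  have hPf : IsP (1 : K ≃ₐ[K] K) (X - 1) (fun x => ∑ j, β j * E.h j x) := by
    refine ⟨fun x y => ?_, fun x => ?_⟩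
    · show ∑ j, β j * E.h j (x * y) = ∑ j, β j * E.h j x + ∑ j, β j * E.h j y
      rw [← Finset.sum_add_distrib]
      refine Finset.sum_congr rfl fun j _ => ?_
      rw [(E.hP j).1 x y, mul_add]
    · show ∑ j, β j * E.h j (act 1 x) = AdjoinRoot.root _ * ∑ j, β j * E.h j x
      rw [Finset.mul_sum]
      refine Finset.sum_congr rfl fun j _ => ?_
      rw [(E.hP j).2 x]
      ring
  refine ⟨fun x y => ?_, fun x hx => ?_, fun x hx => ?_⟩
  · show lam (∑ j, β j * E.h j (nrm K K₁ (x * y))) = _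
    have h1 := hPf.1 (nrm K K₁ x) (nrm K K₁ y)
    rw [← map_mul] at h1
    have h2 : ∑ j, β j * E.h j (nrm K K₁ (x * y)) = ∑ j, β j * E.h j (nrm K K₁ x) +
      ∑ j, β j * E.h j (nrm K K₁ y) := h1
    rw [h2, map_add]
  · show lam (∑ j, β j * E.h j (nrm K K₁ x)) = 0
    rw [Finset.sum_eq_zero fun j _ => by rw [E.hL j _ (locS_nrm B.S hx), mul_zero], map_zero]
  · show lam (∑ j, β j * E.h j (nrm K K₁ x)) = 0
    have h1 := ((Pool.Agent.Helper42.PP1.w_nrm p K K K₁ K₁ ε 1 (X - 1) hB.sit B).1 _ hPf).2.1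
    have h2 := h1 (nrm K K₁ x) ((Pool.Agent.Helper32.PP.b_nor
      Pool.Agent.Helper16.PP.p_upr p K K K₁ B.S).1 x hx)
    have h3 : B.til (fun x => ∑ j, β j * E.h j x) (nrm K K₁ x) =
        ∑ j, β j * E.h j (nrm K K₁ x) := by
      unfold Pool.Agent.Helper42.PP.Base.til
      have h4 : ∑ i, (fun x => ∑ j, β j * E.h j x) (B.u i) * B.rho i (nrm K K₁ x) = 0 := by
        refine Finset.sum_eq_zero fun i _ => ?_
        show (∑ j, β j * E.h j (B.u i)) * _ = 0
        rw [hβ i, zero_mul]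
      rw [h4, sub_zero]
    rw [h3] at h2
    rw [h2, map_zero]

/-- A combination which vanishes at the norms from a field of degree prime to `p` is trivial. -/
theorem comb_zero {F : Type} [Field F] [NumberField F] [Algebra K F]
    (hc : (finrank K F).Coprime p) {P : (ZMod p)[X]} (hP : Irreducible P) {δ : K ≃ₐ[K] K}
    {B : Base p K K K₁ K₁ ε δ P} {n : ℕ} (E : TauF n B) (β : Fin n → AdjoinRoot P)
    (h : ∀ x : Fˣ, ∑ j, β j * E.h j (nrm K F x) = 0) : β = 0 := by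
  have hirr : Fact (Irreducible P) := ⟨hP⟩
  refine E.hI β fun z => ?_
  have h1 := h (inc K F z)
  have h2 : nrm K F (inc K F z) = z ^ finrank K F := by
    apply Units.ext
    show Algebra.norm K (algebraMap K F (z : K)) = _
    rw [Algebra.norm_algebraMap, Units.val_pow_eq_pow_val]
  have h3 : ∀ (j : Fin n) (m : ℕ), E.h j (z ^ m) = (m : AdjoinRoot P) * E.h j z := by
    intro j m
    induction m with
    | zero =>
      have h4 := (E.hP j).1 1 1
      rw [mul_one] at h4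
      rw [pow_zero, Nat.cast_zero, zero_mul]
      exact left_eq_add.1 h4
    | succ m ih =>
      rw [pow_succ, (E.hP j).1, ih, Nat.cast_succ, add_mul, one_mul]
  rw [h2, Finset.sum_congr rfl fun j _ => by rw [h3 j]] at h1
  have h4 : ((finrank K F : ℕ) : AdjoinRoot P) * ∑ j, β j * E.h j z = 0 := by
    rw [← h1, Finset.mul_sum]
    exact Finset.sum_congr rfl fun j _ => by ring
  have h5 : ((finrank K F : ℕ) : AdjoinRoot P) ≠ 0 := by
    have h6 : ((finrank K F : ℕ) : ZMod p) ≠ 0 := by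
      rw [Ne, ZMod.natCast_eq_zero_iff]
      exact (hp.out.coprime_iff_not_dvd.1 hc.symm)
    have h7 := (_root_.map_ne_zero (algebraMap (ZMod p) (AdjoinRoot P))).2 h6
    rwa [map_natCast] at h7
  exact (mul_eq_zero.1 h4).resolve_left h5

/-- `J = K`. -/
theorem ext_one (hk : Nonempty (AlgebraicClosure ℚ →+* k))
    (hB : SitBs p K K K₁ K₁ J M₂ ε (1 : K ≃ₐ[K] K) (X - 1) a₀) (hJ : finrank K J = 1)
    (L : IwasawaLog p k)
    (T : Set (K →+* k)) (B : Base p K K K₁ K₁ ε (1 : K ≃ₐ[K] K) (X - 1)) (a : K₁ˣ)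
    (haO : OmType p K ε (a : K₁))
    (hap : ∀ Q : HeightOneSpectrum (𝓞 K₁), Q.valuation K₁ (p : K₁) < 1 →
      (p : ℤ) ∣ ordv Q (a : K₁)) :
    ∃ E : TauB (B.S.card + T.ncard) B a₀ L T a, NrmInd E.toTauF M₂ := by
  obtain ⟨E⟩ := extB1 hk hB L T B a haO hap
  refine ⟨E, fun β _ hβ => ?_⟩
  have := hB.t1
  have := hB.t4
  have := hB.gJ
  have := hB.gM₂
  have hG : IsGalois K₁ M₂ := IsGalois.tower_top_of_isGalois K K₁ M₂
  have hc : (finrank K M₂).Coprime p := by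
    have h1 : finrank K₁ M₂ = 1 := by
      rw [← IsGalois.card_aut_eq_finrank, Nat.card_eq_one_iff_unique]
      refine ⟨⟨fun σ τ => ?_⟩, ⟨1⟩⟩
      have h2 : ∀ σ : M₂ ≃ₐ[K₁] M₂, σ = 1 := by
        intro σ
        have h3 : AlgEquiv.restrictNormal (σ.restrictScalars K) J = 1 := by
          have h4 : Nat.card (J ≃ₐ[K] J) = 1 := by rw [IsGalois.card_aut_eq_finrank, hJ]
          exact @Subsingleton.elim _ (Nat.card_eq_one_iff_unique.1 h4).1 _ _
        have h5 : σ.restrictScalars K = 1 := by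
          apply hB.lin₂ _ (fun x => σ.commutes x)
          intro x
          have h6 := AlgEquiv.restrictNormal_commutes (σ.restrictScalars K) J x
          rw [h3] at h6
          exact h6.symm
        apply AlgEquiv.ext
        intro x
        exact congrArg (fun τ : M₂ ≃ₐ[K] M₂ => τ x) h5
      rw [h2 σ, h2 τ]
    have h2 : finrank K K₁ * finrank K₁ M₂ = finrank K M₂ := finrank_mul_finrank K K₁ M₂
    rw [← h2, h1, mul_one]
    exact cop_KM₁ hB.sit
  exact comb_zero hc hB.sit.irr E.toTauF β hβ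

/-- `J ≠ K`: one condition less. -/
theorem ext_J (hLINE : V_LINE) (hk : Nonempty (AlgebraicClosure ℚ →+* k))
    (hB : SitBs p K K K₁ K₁ J M₂ ε (1 : K ≃ₐ[K] K) (X - 1) a₀)
    (hμ : ¬ ∃ ξ : K, IsPrimitiveRoot ξ p) (L : IwasawaLog p k)
    (T : Set (K →+* k)) (B : Base p K K K₁ K₁ ε (1 : K ≃ₐ[K] K) (X - 1)) (D : BaseB B a₀)
    (a : K₁ˣ) (haO : OmType p K ε (a : K₁))
    (hap : ∀ Q : HeightOneSpectrum (𝓞 K₁), Q.valuation K₁ (p : K₁) < 1 →
      (p : ℤ) ∣ ordv Q (a : K₁)) :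
    ∃ E : TauB (B.S.card + T.ncard - 1) B a₀ L T a, NrmInd E.toTauF M₂ := by
  have := hB.t1
  have := hB.sit.gK
  have hirr : Fact (Irreducible (X - 1 : (ZMod p)[X])) := ⟨hB.sit.irr⟩
  have hC : Pool.Agent.Helper11.LE.Cyc p K K₁ ε := ⟨hB.sit.prim, hB.sit.gK, hB.sit.gen⟩
  have h2K := Pool.Agent.Helper90.LE.l_cyc p K K₁ ε hC
  have hcK : IsTotallyComplex K₁ := h2K.2.2.2 (Pool.Agent.Helper77.PPO.p_ne_two p K hμ)
  obtain ⟨s, hs, -, hs2⟩ := hLINE p K K K₁ K₁ J M₂ ε 1 (X - 1) a₀ hB B D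
  let lam : AdjoinRoot (X - 1 : (ZMod p)[X]) →+* ZMod p :=
    AdjoinRoot.lift (RingHom.id (ZMod p)) 1 (by simp)
  have hlam : Function.Injective lam := lam.injective
  have hlamc : ∀ c : ZMod p, lam (algebraMap _ _ c) = c := by
    intro c
    show AdjoinRoot.lift (RingHom.id (ZMod p)) 1 _ (AdjoinRoot.of _ c) = c
    rw [AdjoinRoot.lift_of]
    rfl
  obtain ⟨E⟩ := extB1 hk hB L T B a haO hap
  generalize B.S.card + T.ncard = n at E ⊢
  -- the combinations which violate the condition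
  have hline : ∀ β : Fin n → AdjoinRoot (X - 1 : (ZMod p)[X]),
      (∀ i, ∑ j, β j * E.h j (B.u i) = 0) → (∀ x : M₂ˣ, ∑ j, β j * E.h j (nrm K M₂ x) = 0) →
      ∃ c : ZMod p, ∀ x : K₁ˣ, lam (∑ j, β j * E.h j (nrm K K₁ x)) = c * s x := by
    intro β h1 h2
    refine hs2 _ (kil_comb hB.toSitB B E.toTauF lam β h1) fun y => ?_
    have h3 : nrm K K₁ (nrm K₁ M₂ y) = nrm K M₂ y := by
      apply Units.ext
      exact Algebra.norm_norm (R := K) (S := K₁) (A := M₂)
    show lam (∑ j, β j * E.h j (nrm K K₁ (nrm K₁ M₂ y))) = 0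
    rw [h3, h2, map_zero]
  have hzero : ∀ β : Fin n → AdjoinRoot (X - 1 : (ZMod p)[X]),
      (∀ x : K₁ˣ, lam (∑ j, β j * E.h j (nrm K K₁ x)) = 0) → β = 0 := by
    intro β h1
    refine comb_zero (cop_KM₁ hB.sit) hB.sit.irr E.toTauF β fun x => ?_
    apply hlam
    rw [h1, map_zero]
  cases n with
  | zero => exact ⟨E, fun β _ _ => funext fun j => Fin.elim0 j⟩
  | succ n =>
    obtain ⟨j₀, hj₀⟩ : ∃ j₀ : Fin (n + 1), ∀ β : Fin (n + 1) → AdjoinRoot (X - 1 : (ZMod p)[X]),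
        (∀ i, ∑ j, β j * E.h j (B.u i) = 0) → (∀ x : M₂ˣ, ∑ j, β j * E.h j (nrm K M₂ x) = 0) →
        β j₀ = 0 → β = 0 := by
      by_cases hex : ∃ β : Fin (n + 1) → AdjoinRoot (X - 1 : (ZMod p)[X]),
          ((∀ i, ∑ j, β j * E.h j (B.u i) = 0) ∧
            ∀ x : M₂ˣ, ∑ j, β j * E.h j (nrm K M₂ x) = 0) ∧ β ≠ 0
      · obtain ⟨β₀, ⟨h01, h02⟩, hne⟩ := hex
        obtain ⟨j₀, hj₀⟩ : ∃ j₀, β₀ j₀ ≠ 0 := by
          by_contra hcon
          push Not at hcon
          exact hne (funext hcon)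
        refine ⟨j₀, fun β h1 h2 h0 => ?_⟩
        obtain ⟨c₀, hc₀⟩ := hline β₀ h01 h02
        obtain ⟨c, hc⟩ := hline β h1 h2
        have hγ : (fun j => algebraMap (ZMod p) _ c₀ * β j -
            algebraMap (ZMod p) _ c * β₀ j) = 0 := by
          refine hzero _ fun x => ?_
          have e : ∑ j, (algebraMap (ZMod p) _ c₀ * β j - algebraMap (ZMod p) _ c * β₀ j) *
              E.h j (nrm K K₁ x) = algebraMap (ZMod p) _ c₀ * ∑ j, β j * E.h j (nrm K K₁ x) -
              algebraMap (ZMod p) _ c * ∑ j, β₀ j * E.h j (nrm K K₁ x) := by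
            rw [Finset.mul_sum, Finset.mul_sum, ← Finset.sum_sub_distrib]
            exact Finset.sum_congr rfl fun j _ => by ring
          rw [e, map_sub, map_mul, map_mul, hlamc, hlamc, hc, hc₀]
          ring
        have h3 := congrFun hγ j₀
        have h4 : algebraMap (ZMod p) (AdjoinRoot (X - 1 : (ZMod p)[X])) c * β₀ j₀ = 0 := by
          have h5 : algebraMap (ZMod p) (AdjoinRoot (X - 1 : (ZMod p)[X])) c₀ * β j₀ -
              algebraMap (ZMod p) (AdjoinRoot (X - 1 : (ZMod p)[X])) c * β₀ j₀ = 0 := h3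
          rw [h0, mul_zero, zero_sub, neg_eq_zero] at h5
          exact h5
        have h5 := (mul_eq_zero.1 h4).resolve_right hj₀
        have h6 : c = 0 := (map_eq_zero _).1 h5
        refine hzero β fun x => ?_
        rw [hc, h6, zero_mul]
      · refine ⟨0, fun β h1 h2 _ => ?_⟩
        by_contra hne
        exact hex ⟨β, ⟨h1, h2⟩, hne⟩
    exact drop E j₀ hj₀

end one

/-- **M_EXT1** from `V_LINE`. -/
theorem m_ext1 (hLINE : V_LINE) : M_EXT1 := by
  intro p hp L K K₁ J M₂ _ _ _ _ _ _ _ _ _ _ _ _ _ ε a₀ hB hμ T B D aτ haO hap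
  have hne : Nonempty (AlgebraicClosure ℚ →+* ℂ_[p]) :=
    Pool.Agent.Helper35.RD.nonempty_hom ℚ ℂ_[p]
  exact ⟨fun hJ => ext_one hne hB hJ L T B aτ haO hap,
    fun _ => ext_J hLINE hne hB hμ L T B D aτ haO hap⟩

end Pool.Agent.Helper94.PB
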