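import Pool.Agent.Helper94.PP1.EXB
import Pool.Agent.Helper42.PB.Goals
import Pool.Agent.Helper79.PP.PVIS

/-!
# Project B (MP_fc6b1e_nt): V_EXB, existence of the base data
-/

set_option autoImplicit false

namespace Pool.Agent.Helper94.PB

open NumberField Polynomial Module IsDedekindDomain Pool.Agent.Helper51.SigLeo
open Pool.Agent.Helper51.RP Pool.Agent.Helper42.RD Pool.Agent.Helper42.PP
open Pool.Agent.Helper42.PP1 (SitW subs_aut freeP_self sitW_one)
open Pool.Agent.Helper42.PB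
open Pool.Agent.Helper40.RS (bel)
open Pool.Agent.Helper40.RD (bel_of_above ordW)
open Pool.Agent.Helper38.RS (pz)
open Pool.Agent.Helper99.RS (pz_mono pz_union pz_finite finite_bad)
open Pool.Agent.Helper46.PP.Sch (sex avoid ram_fin ord_eq)

/-- `schW` with a given finite set of primes. -/
theorem schB {p : ℕ} [hpF : Fact p.Prime] {K M K₁ M₁ : Type} [Field K] [NumberField K] [Field M]
    [NumberField M] [Field K₁] [NumberField K₁] [Field M₁] [NumberField M₁] [Algebra K M]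
    [Algebra K K₁] [Algebra K M₁] [Algebra M M₁] [Algebra K₁ M₁] {ε : K₁} {δ : M ≃ₐ[K] M}
    {P : (ZMod p)[X]} (hs : SitW p K M K₁ M₁ ε δ P)
    (S₀ : Finset (HeightOneSpectrum (𝓞 K))) :
  ∃ S : Finset (HeightOneSpectrum (𝓞 K)), S₀ ⊆ S ∧
    (∀ v : HeightOneSpectrum (𝓞 K), v.valuation K (p : K) < 1 → v ∈ S) ∧
    (∀ v : HeightOneSpectrum (𝓞 K), v ∉ S → ∀ W : HeightOneSpectrum (𝓞 M₁), Above W v →
      ∀ x : K, ordv W (algebraMap K M₁ x) = ordv v x) ∧
    (∀ n : HeightOneSpectrum (𝓞 M) →₀ ℤ, ∃ x : Mˣ, ∀ w ∉ up M S, ordv w (x : M) = n w) ∧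
    (∀ n : HeightOneSpectrum (𝓞 K₁) →₀ ℤ, ∃ x : K₁ˣ, ∀ w ∉ up K₁ S, ordv w (x : K₁) = n w) ∧
    (∀ n : HeightOneSpectrum (𝓞 M₁) →₀ ℤ, ∃ x : M₁ˣ, ∀ w ∉ up M₁ S, ordv w (x : M₁) = n w) ∧
    (∀ x ∈ (up M S).unit M, LocS p (up M S) x → Pw p x) ∧
    ∀ x ∈ (up K₁ S).unit K₁, LocS p (up K₁ S) x → Pw p x := by
  classical
  obtain ⟨_, _, _, _, _, hprim0, -, -, -, -, -, -, hc1, hc2, -, -⟩ := hs
  have hG1 : IsGalois M M₁ := IsGalois.tower_top_of_isGalois K M M₁
  have hG2 : IsGalois K₁ M₁ := IsGalois.tower_top_of_isGalois K K₁ M₁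
  have hprim : IsPrimitiveRoot (algebraMap K₁ M₁ ε) p :=
    hprim0.map_of_injective (algebraMap K₁ M₁).injective
  obtain ⟨A, hA⟩ := avoid p M M₁ hc1 _ hprim
  obtain ⟨B, hB⟩ := avoid p K₁ M₁ hc2 _ hprim
  obtain ⟨S1, hS1, -, -, hp1⟩ := sex K M ∅ Set.finite_empty
  obtain ⟨S2, hS2, -, -, hp2⟩ := sex K K₁ ∅ Set.finite_empty
  obtain ⟨S3, hS3, -, -, hp3⟩ := sex K M₁ ∅ Set.finite_empty
  have hpK : (p : K) ≠ 0 := Nat.cast_ne_zero.2 hpF.out.ne_zero
  have hfp := finite_bad (F := K) hpK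
  have hrm := ram_fin K M₁
  set S : Finset (HeightOneSpectrum (𝓞 K)) := hfp.toFinset ∪ hrm.toFinset ∪
    (hS1.image (bel K)).toFinset ∪ (hS2.image (bel K)).toFinset ∪ (hS3.image (bel K)).toFinset ∪
    A.image (bel K) ∪ B.image (bel K) ∪ S₀ with hSdef
  have hSp : ∀ v : HeightOneSpectrum (𝓞 K), v.valuation K (p : K) < 1 → v ∈ S := by
    intro v hv
    have h : v ∈ hfp.toFinset := by
      rw [Set.Finite.mem_toFinset]
      exact hv.ne
    simp only [hSdef, Finset.mem_union]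
    tauto
  have hSr : ∀ v : HeightOneSpectrum (𝓞 K), v ∉ S → v ∉ hrm.toFinset := by
    intro v hv h
    apply hv
    simp only [hSdef, Finset.mem_union]
    tauto
  have hSe1 : ∀ w : HeightOneSpectrum (𝓞 M), w ∈ S1 → w ∈ up M S := by
    intro w hw
    refine ⟨bel K w, ?_, rfl⟩
    have h : bel K w ∈ (hS1.image (bel K)).toFinset := by
      rw [Set.Finite.mem_toFinset]
      exact Set.mem_image_of_mem _ hw
    simp only [hSdef, Finset.mem_union]
    tauto
  have hSe2 : ∀ w : HeightOneSpectrum (𝓞 K₁), w ∈ S2 → w ∈ up K₁ S := by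
    intro w hw
    refine ⟨bel K w, ?_, rfl⟩
    have h : bel K w ∈ (hS2.image (bel K)).toFinset := by
      rw [Set.Finite.mem_toFinset]
      exact Set.mem_image_of_mem _ hw
    simp only [hSdef, Finset.mem_union]
    tauto
  have hSe3 : ∀ w : HeightOneSpectrum (𝓞 M₁), w ∈ S3 → w ∈ up M₁ S := by
    intro w hw
    refine ⟨bel K w, ?_, rfl⟩
    have h : bel K w ∈ (hS3.image (bel K)).toFinset := by
      rw [Set.Finite.mem_toFinset]
      exact Set.mem_image_of_mem _ hw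
    simp only [hSdef, Finset.mem_union]
    tauto
  have hSA : ∀ w : HeightOneSpectrum (𝓞 M), w ∈ A → w ∈ up M S := by
    intro w hw
    refine ⟨bel K w, ?_, rfl⟩
    have h : bel K w ∈ A.image (bel K) := Finset.mem_image_of_mem _ hw
    simp only [hSdef, Finset.mem_union]
    tauto
  have hSB : ∀ w : HeightOneSpectrum (𝓞 K₁), w ∈ B → w ∈ up K₁ S := by
    intro w hw
    refine ⟨bel K w, ?_, rfl⟩
    have h : bel K w ∈ B.image (bel K) := Finset.mem_image_of_mem _ hw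
    simp only [hSdef, Finset.mem_union]
    tauto
  have hS₀ : S₀ ⊆ S := by
    intro v hv
    simp only [hSdef, Finset.mem_union]
    tauto
  clear_value S
  have hord0 : ∀ (F : Type) [Field F] [NumberField F] (w : HeightOneSpectrum (𝓞 F)) (x : F),
      w.valuation F x = 1 → ordv w x = 0 := by
    intro F _ _ w x h
    unfold ordv
    rw [h, WithZero.log_one, neg_zero]
  refine ⟨S, hS₀, hSp, ?_, ?_, ?_, ?_, ?_, ?_⟩
  · intro v hv W hW x
    refine ord_eq hW (fun h => ?_) x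
    apply hSr v hv
    rw [Set.Finite.mem_toFinset]
    exact ⟨W, hW, h⟩
  · intro n
    obtain ⟨x, hx⟩ := hp1 n
    exact ⟨x, fun w hw => hx w fun h => hw (hSe1 w h)⟩
  · intro n
    obtain ⟨x, hx⟩ := hp2 n
    exact ⟨x, fun w hw => hx w fun h => hw (hSe2 w h)⟩
  · intro n
    obtain ⟨x, hx⟩ := hp3 n
    exact ⟨x, fun w hw => hx w fun h => hw (hSe3 w h)⟩
  · intro x hx hl
    obtain ⟨f1, f2, f3, -⟩ := Pool.Agent.Helper16.PP.p_upr p K M S
    obtain ⟨G, hG, -, -, -, hGl⟩ := Pool.Agent.Helper74.PP.p_lfi p K M (up M S) f1 (f3 hSp) f2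
    have hxG : x ∈ G := (hG x).2 hl
    refine hA x (fun w => ?_) (fun w hw => (hGl x hxG w (hSA w hw)).2)
    by_cases hw : w ∈ up M S
    · exact (hGl x hxG w hw).1
    · rw [hord0 M w _ (hx w hw)]
      exact dvd_zero _
  · intro x hx hl
    obtain ⟨f1, f2, f3, -⟩ := Pool.Agent.Helper16.PP.p_upr p K K₁ S
    obtain ⟨G, hG, -, -, -, hGl⟩ := Pool.Agent.Helper74.PP.p_lfi p K K₁ (up K₁ S) f1 (f3 hSp) f2
    have hxG : x ∈ G := (hG x).2 hl
    refine hB x (fun w => ?_) (fun w hw => (hGl x hxG w (hSB w hw)).2)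
    by_cases hw : w ∈ up K₁ S
    · exact (hGl x hxG w hw).1
    · rw [hord0 K₁ w _ (hx w hw)]
      exact dvd_zero _


/-- Existence of `Base` with a given set `S`. -/
theorem exbS {p : ℕ} [hp : Fact p.Prime] {K M K₁ M₁ : Type} [Field K] [NumberField K] [Field M]
    [NumberField M] [Field K₁] [NumberField K₁] [Field M₁] [NumberField M₁] [Algebra K M]
    [Algebra K K₁] [Algebra K M₁] [Algebra M M₁] [Algebra K₁ M₁] {ε : K₁} {δ : M ≃ₐ[K] M}
    {P : (ZMod p)[X]} (hs : SitW p K M K₁ M₁ ε δ P) (S : Finset (HeightOneSpectrum (𝓞 K)))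
    (hSp : ∀ v : HeightOneSpectrum (𝓞 K), v.valuation K (p : K) < 1 → v ∈ S)
    (hunr : ∀ v : HeightOneSpectrum (𝓞 K), v ∉ S → ∀ W : HeightOneSpectrum (𝓞 M₁), Above W v →
      ∀ x : K, ordv W (algebraMap K M₁ x) = ordv v x)
    (hprM : ∀ n : HeightOneSpectrum (𝓞 M) →₀ ℤ, ∃ x : Mˣ, ∀ w ∉ up M S, ordv w (x : M) = n w)
    (hprK : ∀ n : HeightOneSpectrum (𝓞 K₁) →₀ ℤ, ∃ x : K₁ˣ, ∀ w ∉ up K₁ S,
      ordv w (x : K₁) = n w)
    (hprMK : ∀ n : HeightOneSpectrum (𝓞 M₁) →₀ ℤ, ∃ x : M₁ˣ, ∀ w ∉ up M₁ S,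
      ordv w (x : M₁) = n w)
    (hUM : ∀ x ∈ (up M S).unit M, LocS p (up M S) x → Pw p x)
    (hUK : ∀ x ∈ (up K₁ S).unit K₁, LocS p (up K₁ S) x → Pw p x) :
    ∃ B : Base p K M K₁ M₁ ε δ P, B.S = S := by
  classical
  obtain ⟨_, _, _, _, _, hprim, hgen, -, hsord, hirr, hdvdP, hcopm, hc1, hc2, hnsp, hvis⟩ := hs
  have hp' : p.Prime := hp.out
  have hδm : δ ^ finrank K M = 1 := by rw [← hsord]; exact pow_orderOf_eq_one δ
  have hm0 : 0 < finrank K M := finrank_pos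
  have hv1 : ∀ v : HeightOneSpectrum (𝓞 K), v ∉ S → v.valuation K (p : K) = 1 := by
    intro v hv
    by_contra h
    apply hv
    apply hSp
    refine lt_of_le_of_ne ?_ h
    simpa using v.valuation_le_one (K := K) (p : 𝓞 K)
  -- primes
  have hW : ∀ v : HeightOneSpectrum (𝓞 K), ∃ W : HeightOneSpectrum (𝓞 M₁),
      v ∈ Spl M₁ S → Above W v ∧ FreeP K W := by
    intro v
    by_cases h : v ∈ Spl M₁ S
    · obtain ⟨-, W, hW⟩ := h
      exact ⟨W, fun _ => hW⟩
    · obtain ⟨W, hW⟩ := exists_bel (M₁ := M₁) v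
      exact ⟨W, fun h' => absurd h' h⟩
  choose W hW using hW
  have hQ : ∀ v : HeightOneSpectrum (𝓞 K), ∃ Q : HeightOneSpectrum (𝓞 K₁),
      (v ∈ Spl K₁ S → Above Q v ∧ FreeP K Q) ∧ (v ∈ Spl M₁ S → Above (W v) Q) := by
    intro v
    by_cases h : v ∈ Spl M₁ S
    · have h1 := hW v h
      have h2 := ((hvis v (hv1 v h.1)).1 (W v) h1.1 h1.2).2.2 (bel K₁ (W v)) (above_bel _)
      exact ⟨bel K₁ (W v), fun _ => ⟨h2.2.2, h2.1⟩, fun _ => above_bel _⟩
    · by_cases h' : v ∈ Spl K₁ S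
      · obtain ⟨-, Q, hQ⟩ := h'
        exact ⟨Q, fun _ => hQ, fun h2 => absurd h2 h⟩
      · obtain ⟨Q, hQ⟩ := exists_bel (M₁ := K₁) v
        exact ⟨Q, fun h2 => absurd h2 h', fun h2 => absurd h2 h⟩
  choose Q hQ1 hQ2 using hQ
  have hvp : ∀ v : HeightOneSpectrum (𝓞 K), ∃ π : K, ordv v π = 1 := by
    intro v
    obtain ⟨π, hπ⟩ := v.valuation_exists_uniformizer K
    refine ⟨π, ?_⟩
    unfold ordv
    rw [hπ, WithZero.log_exp, neg_neg]
  choose vp hvp using hvp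
  -- logarithms
  have hth : ∀ v : HeightOneSpectrum (𝓞 K), ∃ θ : M₁ˣ → ZMod p, v ∈ Spl M₁ S → Hom θ ∧
      ∀ x : M₁ˣ, θ x = 0 ↔ ∃ i : ℕ, LocPow p (W v) ((x : M₁) * (algebraMap K M₁ (vp v)) ^ i) := by
    intro v
    by_cases h : v ∈ Spl M₁ S
    · have h1 := hW v h
      have h2 := (hvis v (hv1 v h.1)).1 (W v) h1.1 h1.2
      have h3 := h2.2.2 (Q v) (hQ2 v h)
      have h4 : p ∣ Ideal.absNorm (W v).asIdeal - 1 := by
        rw [h2.1]
        exact ((hvis v (hv1 v h.1)).2.2 (Q v) h3.2.2 h3.1).2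
      obtain ⟨θ, hθ1, hθ2, -⟩ := exists_theta (W v) hp' h4 (algebraMap K M₁ (vp v))
        (by rw [hunr v h.1 (W v) h1.1, hvp])
      exact ⟨θ, fun _ => ⟨hθ1, hθ2⟩⟩
    · exact ⟨fun _ => 0, fun h' => absurd h' h⟩
  choose th hth using hth
  choose z hz using fun v => hprMK (Finsupp.single (W v) 1)
  choose y hy using fun v => hprK (Finsupp.single (Q v) 1)
  -- the `P`-part
  obtain ⟨f1, f2, f3, -⟩ := Pool.Agent.Helper16.PP.p_upr p K M S
  obtain ⟨G, hG, hGfi, hGp, hGσ, -⟩ := Pool.Agent.Helper74.PP.p_lfi p K M (up M S) f1 (f3 hSp) f2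
  have hGδ' : ∀ x ∈ G, act δ x ∈ G := hGσ δ
  have hUst : ∀ x ∈ (up M S).unit M, act δ x ∈ (up M S).unit M := fun x hx =>
    Pool.Agent.Helper64.PP.unit_act f2 δ hx
  obtain ⟨r, -, u, hu1, hu2, hu3⟩ := Pool.Agent.Helper53.PP.p_bas p K M (finrank K M) δ P hm0
    hcopm hδm hirr hdvdP ((up M S).unit M) hUst G.index (by
      intro F hF1 hF2
      have hinj : Set.InjOn (fun x : Mˣ => (QuotientGroup.mk x : Mˣ ⧸ G)) F := by
        intro x hx y hy hxy
        by_contra hne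
        apply hF2 x hx y hy hne
        refine hUM _ ((up M S).unit M |>.div_mem (hF1 x hx).1 (hF1 y hy).1) ((hG _).1 ?_)
        have h := QuotientGroup.eq.1 hxy
        rw [div_eq_mul_inv, mul_comm, ← inv_mem_iff]
        rw [mul_inv, inv_inv, mul_comm]
        exact h
      have hfin : Finite (Mˣ ⧸ G) := Subgroup.finite_quotient_of_finiteIndex
      have h1 : F.card ≤ G.index := by
        have hft : Fintype (Mˣ ⧸ G) := Fintype.ofFinite _
        rw [Subgroup.index, Nat.card_eq_fintype_card, ← Finset.card_univ]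
        exact Finset.card_le_card_of_injOn (fun x : Mˣ => (QuotientGroup.mk x : Mˣ ⧸ G))
          (fun _ _ => Finset.mem_univ _) hinj
      have h2 : 1 ≤ P.natDegree := hirr.natDegree_pos
      calc F.card ≤ G.index := h1
        _ ≤ p ^ G.index := (Nat.lt_pow_self hp'.one_lt).le
        _ ≤ p ^ (P.natDegree * G.index) := Nat.pow_le_pow_right hp'.pos
            (Nat.le_mul_of_pos_left _ h2))
  have hprod : ∀ c : Fin r → (ZMod p)[X], (∏ i, pol (c i) δ (u i)) ∈ (up M S).unit M := by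
    intro c
    exact Subgroup.prod_mem _ fun i _ => Pool.Agent.Helper64.PP.unit_pol f2 δ _ (hu1 i).1
  obtain ⟨rho, hrhoP, hrhoG, hrhou⟩ := (Pool.Agent.Helper91.PP.p_sep p K M (finrank K M) δ P hm0
    hcopm hδm hirr hdvdP G hGp hGδ').1 r u (fun i => hGp _ (hu1 i).2) (by
      intro c hc
      exact hu2 c (hUM _ (hprod c) ((hG _).1 hc)))
  have hrho0 : ∀ x ∈ (up M S).unit M, Pw p (pol P δ x) → (∀ i, rho i x = 0) → Pw p x := by
    intro x hx hPx h0
    obtain ⟨c, hc⟩ := hu3 x hx hPx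
    have h1 : ∀ i, AdjoinRoot.mk P (c i) = 0 := by
      intro i
      obtain ⟨hF1, hF2⟩ := (Pool.Agent.Helper30.PP.p_fun p K M (finrank K M) δ P hm0 hcopm hδm
        hirr hdvdP).1 _ (hrhoP i)
      have h2 := hF2 _ hc
      rw [Pool.Agent.Helper64.PP.hom_div (hrhoP i).1, h0, zero_sub, neg_eq_zero,
        Pool.Agent.Helper64.PP.hom_prod (hrhoP i).1] at h2
      rw [Finset.sum_congr rfl fun j _ => hF1 (c j) (u j)] at h2
      simp only [hrhou, mul_ite, mul_one, mul_zero, Finset.sum_ite_eq, Finset.mem_univ,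
        if_true] at h2
      exact h2
    have h3 : Pw p (∏ i, pol (c i) δ (u i)) := by
      refine Pool.Agent.Helper64.PP.pw_prod _ fun i => ?_
      exact Pool.Agent.Helper94.PP1.pw_mul δ P (c i) (hu1 i).2 (AdjoinRoot.mk_eq_zero.1 (h1 i))
    have h4 := Pool.Agent.Helper64.PP.pw_mul hc h3
    rwa [div_mul_cancel] at h4
  -- the part of type `ω`
  obtain ⟨g1, g2, g3, -⟩ := Pool.Agent.Helper16.PP.p_upr p K K₁ S
  obtain ⟨G₁, hG₁, hG₁fi, hG₁p, hG₁σ, -⟩ :=
    Pool.Agent.Helper74.PP.p_lfi p K K₁ (up K₁ S) g1 (g3 hSp) g2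
  have hcK₁ : (finrank K K₁).Coprime p := by
    have hd3 := Pool.Agent.Helper14.RD.finrank_dvd_pred p K K₁ ε hprim hgen
    have hc1 : (p - 1).Coprime p := by
      have h := hp'.one_lt
      have h2 : (p - 1).Coprime (p - 1 + 1) := by simp
      rwa [Nat.sub_add_cancel h.le] at h2
    exact Nat.Coprime.coprime_dvd_left hd3 hc1
  obtain ⟨⟨s, uw, rw', hw1, hw2, hw3, hw4, hw5⟩, t, ch, hc1', hc2', hc3', hc4', hc5'⟩ :=
    Pool.Agent.Helper86.PP.p_wsp Pool.Agent.Helper22.PP.p_omg p K K₁ ε hprim hgen hcK₁ G₁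
      ((up K₁ S).unit K₁) hG₁fi hG₁p hG₁σ
      (fun σ y hy => Pool.Agent.Helper64.PP.unit_act g2 σ hy)
      (fun x hx hxG => hUK x hx ((hG₁ x).1 hxG))
  exact ⟨
    { S := S
      abp := hSp
      unr := hunr
      prM := hprM
      prK := hprK
      prMK := hprMK
      Q := Q
      w := fun v => bel M (W v)
      W := W
      Qa := hQ1
      Wa := fun v hv => ⟨(hW v hv).1, hQ2 v hv, above_bel _, (hW v hv).2⟩
      vp := vp
      vpo := fun v _ => hvp v
      th := th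
      thh := fun v hv => (hth v hv).1
      thk := fun v hv => (hth v hv).2
      z := z
      zo := by
        intro v _ W' hW'
        have h := hz v W' hW'
        refine ⟨fun h1 => ?_, fun h1 => ?_⟩
        · rw [h, h1, Finsupp.single_eq_same]
        · rw [h, Finsupp.single_apply, if_neg (Ne.symm h1)]
      y := y
      yo := by
        intro v _ W' hW'
        have h := hy v W' hW'
        refine ⟨fun h1 => ?_, fun h1 => ?_⟩
        · rw [h, h1, Finsupp.single_eq_same]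
        · rw [h, Finsupp.single_apply, if_neg (Ne.symm h1)]
      r := r
      u := u
      uS := fun i => (hu1 i).1
      uP := fun i => (hu1 i).2
      rho := rho
      rhoP := hrhoP
      rhoL := fun i x hx => hrhoG i x ((hG x).2 hx)
      rhou := hrhou
      rho0 := hrho0
      s := s
      uw := uw
      uwS := fun i => (hw1 i).1
      uwO := fun i => (hw1 i).2
      rw := rw'
      rwO := hw2
      rwL := fun i x hx => hw3 i x ((hG₁ x).2 hx)
      rwu := hw4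
      rw0 := hw5
      t := t
      ch := ch
      chO := hc1'
      chL := fun j x hx => hc2' j x ((hG₁ x).2 hx)
      chS := hc3'
      chI := hc4'
      chC := by
        intro a ha h0
        obtain ⟨x, hx, hxO, hax⟩ := hc5' a ha h0
        exact ⟨x, hx, hxO, (hG₁ _).1 hax⟩ }, rfl⟩

/-- **V_EXB.** -/
theorem v_exb : V_EXB := by
  classical
  intro p hp K M K₁ M₁ J M₂ _ _ _ _ _ _ _ _ _ _ _ _ _ _ _ _ _ _ _ _ _ _ _ ε δ P a₀ hB
  have hs := hB.sit
  have := hs.st1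
  have := hs.st2
  have := hs.gMK
  have := hB.t1
  have := hB.t2
  have := hB.t3
  have := hB.gM₂
  have hfd : FiniteDimensional K M₂ := Module.Finite.of_restrictScalars_finite ℚ K M₂
  have hfinI : Finite (IntermediateField K M₂) :=
    (Field.exists_primitive_element_iff_finite_intermediateField K M₂).1
      ⟨inferInstance, Field.exists_primitive_element K M₂⟩
  -- the set of primes
  have h1 := ram_fin K M₂
  have h2 := finite_bad (F := M₂) a₀.ne_zero
  choose SF hSF1 hSFa hSFb hSF2 using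
    fun F : IntermediateField K M₂ => sex K F ∅ Set.finite_empty
  have h3 : (⋃ F : IntermediateField K M₂, bel K '' (SF F)).Finite :=
    Set.finite_iUnion fun F => (hSF1 F).image (bel K)
  obtain ⟨S, hS₀, hSp, hunr, hprM, hprK, hprMK, hUM, hUK⟩ := schB hs
    (h1.toFinset ∪ (h2.image (bel K)).toFinset ∪ h3.toFinset)
  obtain ⟨B, hBS⟩ := exbS hs S hSp hunr hprM hprK hprMK hUM hUK
  have hSr : ∀ v : HeightOneSpectrum (𝓞 K), v ∉ S → ¬ ∃ V : HeightOneSpectrum (𝓞 M₂),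
      Above V v ∧ v.asIdeal.map (algebraMap (𝓞 K) (𝓞 M₂)) ≤ V.asIdeal ^ 2 := by
    intro v hv h
    exact hv (hS₀ (by simp only [Finset.mem_union, Set.Finite.mem_toFinset]; exact Or.inl (Or.inl h)))
  have hSa : ∀ W : HeightOneSpectrum (𝓞 M₂), W ∉ up M₂ S → W.valuation M₂ (a₀ : M₂) = 1 := by
    intro W hW
    by_contra h
    apply hW
    refine ⟨bel K W, hS₀ ?_, rfl⟩
    simp only [Finset.mem_union, Set.Finite.mem_toFinset]
    exact Or.inl (Or.inr ⟨W, h, rfl⟩)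
  have hSF : ∀ (F : IntermediateField K M₂) (w : HeightOneSpectrum (𝓞 F)), w ∈ SF F →
      w ∈ up F S := by
    intro F w hw
    refine ⟨bel K w, hS₀ ?_, rfl⟩
    simp only [Finset.mem_union, Set.Finite.mem_toFinset, Set.mem_iUnion]
    exact Or.inr ⟨F, w, hw, rfl⟩
  have hunr₂ : ∀ v : HeightOneSpectrum (𝓞 K), v ∉ S → ∀ W : HeightOneSpectrum (𝓞 M₂),
      Above W v → ∀ x : K, ordv W (algebraMap K M₂ x) = ordv v x := by
    intro v hv W hW x
    exact ord_eq hW (fun h => hSr v hv ⟨W, hW, h⟩) x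
  -- the primes of `M₂`
  have hW₂ : ∀ v : HeightOneSpectrum (𝓞 K), ∃ W₂ : HeightOneSpectrum (𝓞 M₂),
      v ∈ Spl M₂ S → Above W₂ v ∧ Above W₂ (B.W v) ∧ FreeP K W₂ := by
    intro v
    obtain ⟨W₂, hW₂⟩ := exists_bel (M₁ := M₂) (B.W v)
    refine ⟨W₂, fun hv => ?_⟩
    obtain ⟨hvS, W', hW', hW'f⟩ := hv
    have hb' : bel K W' = v := bel_of_above hW'
    have hvis : v ∈ Spl M₁ B.S := by
      rw [hBS]
      refine ⟨hvS, bel M₁ W', ?_, Pool.Agent.Helper79.PP.free_bel W' hW'f⟩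
      have hb2 : bel K (bel M₁ W') = v := (bel_bel W').trans hb'
      exact congrArg HeightOneSpectrum.asIdeal hb2
    have hWv := (B.Wa v hvis).1
    have hb : bel K W₂ = v := by
      rw [← bel_bel (M := M₁) W₂, hW₂]
      exact bel_of_above hWv
    refine ⟨congrArg HeightOneSpectrum.asIdeal hb, ?_, ?_⟩
    · rw [← hW₂]
      exact above_bel W₂
    · exact free_of_conj (conj_of_bel' (hb.trans hb'.symm)) hW'f
  choose W₂ hW₂ using hW₂
  have hx : ∀ v : HeightOneSpectrum (𝓞 K), ∃ x : Kˣ, v ∈ Spl M₂ S → ordv v (x : K) = 0 ∧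
      LocPow p (W₂ v) ((a₀ : M₂) * (algebraMap K M₂ (x : K))⁻¹) := by
    intro v
    by_cases hv : v ∈ Spl M₂ S
    · obtain ⟨hWv, -, hf⟩ := hW₂ v hv
      obtain ⟨x, hx⟩ := Pool.Agent.Helper64.PP.exists_close (K := K) (W₂ v) hf (a₀ : M₂)
        a₀.ne_zero
      have h5 := val_eq_one_of_sub _ hx
      have hx0 : x ≠ 0 := by
        rintro rfl
        rw [map_zero, zero_div, map_zero] at h5
        exact zero_ne_one h5
      refine ⟨Units.mk0 x hx0, fun _ => ⟨?_, ?_⟩⟩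
      · have h6 : ordv (W₂ v) (algebraMap K M₂ x) = ordv (W₂ v) (a₀ : M₂) :=
          ordv_eq_of_div _ a₀.ne_zero hx
        have h7 : ordv (W₂ v) (a₀ : M₂) = 0 := by
          refine (ordv_eq_zero_iff _ a₀.ne_zero).2 (hSa _ ?_)
          rintro ⟨v', hv', hab⟩
          have h8 : v' = v := by
            rw [← bel_of_above hab, bel_of_above hWv]
          rw [h8] at hv'
          exact hv.1 hv'
        show ordv v x = 0
        rw [← hunr₂ v hv.1 _ hWv, h6, h7]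
      · have h8 := val_inv_sub _ hx
        rw [inv_div, div_eq_mul_inv] at h8
        exact locPow_of_sub _ h8
    · exact ⟨1, fun h => absurd h hv⟩
  choose xv hxv using hx
  refine ⟨B, ⟨⟨?_, ?_, ?_, W₂, ?_, fun v => B.th v (inc K M₁ (xv v)), ?_⟩⟩⟩
  · rw [hBS]
    exact hunr₂
  · rw [hBS]
    intro W hW
    rw [(ordv_eq_zero_iff W a₀.ne_zero).2 (hSa W hW)]
    exact dvd_zero _
  · rw [hBS]
    intro F n
    obtain ⟨x, hx⟩ := hSF2 F n
    exact ⟨x, fun w hw => hx w fun h => hw (hSF F w h)⟩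
  · rw [hBS]
    exact hW₂
  · rw [hBS]
    intro v hv
    exact ⟨xv v, (hxv v hv).1, rfl, (hxv v hv).2⟩

end Pool.Agent.Helper94.PB
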