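import Pool.Agent.Helper94.PB.VLOC3
import Pool.Agent.Helper94.PP1.EXT

/-!
# Project B (MP_fc6b1e_nt): V_EXT, existence of `TauB`
-/

set_option autoImplicit false

namespace Pool.Agent.Helper94.PB

open NumberField Polynomial Module IsDedekindDomain Pool.Agent.Helper51.SigLeo
open Pool.Agent.Helper51.RP Pool.Agent.Helper42.RD Pool.Agent.Helper42.PP
open Pool.Agent.Helper42.PP1 (SitW)
open Pool.Agent.Helper42.PB
open Pool.Agent.Helper40.RS (bel gw bel_smul lies conj_of_bel free_gw absNorm_free val_smul efg)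
open Pool.Agent.Helper40.RD (bel_of_above ordW valW)
open Pool.Agent.Helper13.RD (eq_gw eq_of_val ram_free)
open Pool.Agent.Helper64.PP (exists_close locSig_mul_pow)
open Pool.Agent.Helper8.LE (free_ord)

/-- The local condition depends only on the class of `x`. -/
theorem locAt_close {p : ℕ} {F : Type} [Field F] [NumberField F] (W : HeightOneSpectrum (𝓞 F))
    (_ : p ≠ 0) {α x x' : F} (hx : x ≠ 0) (hc : W.valuation F (x' / x - 1) < 1)
    (h : LocAt p W α x) : LocAt p W α x' := by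
  refine ⟨fun hd => ?_, fun hd => ?_⟩
  · rw [ordv_eq_of_div W hx hc]
    exact h.1 hd
  · obtain ⟨i, hi⟩ := h.2 hd
    refine ⟨i, ?_⟩
    have h3 := locPow_mul W (locPow_of_sub (p := p) W hc) hi
    have e : x' / x * (x * ((-1) ^ (p - 1) * α) ^ i) = x' * ((-1) ^ (p - 1) * α) ^ i := by
      field_simp
    rwa [e] at h3

section group

variable {p : ℕ} [hp : Fact p.Prime] {F : Type} [Field F] [NumberField F]
  {W : HeightOneSpectrum (𝓞 F)} {α : F}

theorem locAt_zpow (hα : α ≠ 0) {x : F} (hx : x ≠ 0) (h : LocAt p W α x) (n : ℤ) :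
    LocAt p W α (x ^ n) := by
  have hp0 : p ≠ 0 := hp.out.ne_zero
  refine ⟨fun hd => ?_, fun hd => ?_⟩
  · rw [ordv_zpow W hx]
    exact (h.1 hd).mul_left _
  · obtain ⟨i, hi⟩ := h.2 hd
    have hA : (-1) ^ (p - 1) * α ≠ 0 :=
      mul_ne_zero (pow_ne_zero _ (neg_ne_zero.2 one_ne_zero)) hα
    have h1 : TG p W ((-1) ^ (p - 1) * α) (x ^ n) := by
      refine ⟨(i : ℤ) * n, ?_⟩
      have h2 : LocPow p W ((x * ((-1) ^ (p - 1) * α) ^ i) ^ n) := by
        obtain ⟨m, rfl | rfl⟩ := n.eq_nat_or_neg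
        · rw [zpow_natCast]
          exact locPow_pow W hi m
        · rw [zpow_neg, zpow_natCast]
          exact locPow_inv W (locPow_pow W hi m)
      rw [mul_zpow, ← zpow_natCast, ← zpow_mul] at h2
      exact h2
    exact (tg_iff W hp0 hA _).1 h1

theorem locAt_mul_pow {x c : F} (hx : x ≠ 0) (hc : c ≠ 0) (h : LocAt p W α x) :
    LocAt p W α (x * c ^ p) := by
  refine ⟨fun hd => ?_, fun hd => ?_⟩
  · rw [ordv_mul W hx (pow_ne_zero _ hc), ordv_pow]
    exact dvd_add (h.1 hd) (dvd_mul_right _ _)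
  · obtain ⟨i, hi⟩ := h.2 hd
    refine ⟨i, ?_⟩
    have h1 := (locPow_mul_pth W hc (p := p)).2 hi
    have e : x * ((-1) ^ (p - 1) * α) ^ i * c ^ p = x * c ^ p * ((-1) ^ (p - 1) * α) ^ i := by
      ring
    rwa [e] at h1

end group

/-- The prime `v` of `K` is good for `α`. -/
def Good (p : ℕ) {K F : Type} [Field K] [NumberField K] [Field F] [NumberField F] [Algebra K F]
    (α : F) (v : HeightOneSpectrum (𝓞 K)) (al : K) : Prop :=
  v.valuation K (p : K) = 1 ∧ ordv v al = 1 ∧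
    ∀ W : HeightOneSpectrum (𝓞 F), Above W v → LocAt p W α (algebraMap K F al)

theorem good_of {p : ℕ} [hp : Fact p.Prime] {K F : Type} [Field K] [NumberField K] [Field F]
    [NumberField F] [Algebra K F] {α : F} (hα : α ≠ 0) {v : HeightOneSpectrum (𝓞 K)}
    (hv : v.valuation K (p : K) = 1) {x : K} (hx : ¬ (p : ℤ) ∣ ordv v x)
    (h : ∀ W : HeightOneSpectrum (𝓞 F), Above W v → LocAt p W α (algebraMap K F x)) :
    ∃ al : K, Good p α v al := by
  have hp' := hp.out
  have hx0 : x ≠ 0 := by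
    rintro rfl
    apply hx
    unfold ordv
    rw [map_zero, WithZero.log_zero, neg_zero]
    exact dvd_zero _
  obtain ⟨π, hπ⟩ := v.valuation_exists_uniformizer K
  have hπ0 : π ≠ 0 := by
    rintro rfl
    rw [map_zero] at hπ
    exact WithZero.exp_ne_zero hπ.symm
  have hoπ : ordv v π = 1 := by
    unfold ordv
    rw [hπ, WithZero.log_exp, neg_neg]
  have hcop : IsCoprime (ordv v x) (p : ℤ) := by
    rw [isCoprime_comm]
    exact (Nat.prime_iff_prime_int.1 hp').coprime_iff_not_dvd.2 hx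
  obtain ⟨i, j, hij⟩ := hcop
  refine ⟨x ^ i * (π ^ j) ^ p, hv, ?_, fun W hW => ?_⟩
  · rw [ordv_mul v (zpow_ne_zero _ hx0) (pow_ne_zero _ (zpow_ne_zero _ hπ0)), ordv_zpow v hx0,
      ordv_pow, ordv_zpow v hπ0, hoπ]
    linear_combination hij
  · rw [map_mul, map_pow, map_zpow₀, map_zpow₀]
    have hx1 : algebraMap K F x ≠ 0 := (_root_.map_ne_zero _).2 hx0
    have hπ1 : algebraMap K F π ≠ 0 := (_root_.map_ne_zero _).2 hπ0
    exact locAt_mul_pow (zpow_ne_zero _ hx1) (zpow_ne_zero _ hπ1) (locAt_zpow hα hx1 (h W hW) i)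

section main

variable {p : ℕ} [hp : Fact p.Prime] {K M K₁ M₁ J M₂ : Type} [Field K] [NumberField K] [Field M]
  [NumberField M] [Field K₁] [NumberField K₁] [Field M₁] [NumberField M₁] [Field J]
  [NumberField J] [Field M₂] [NumberField M₂] [Algebra K M] [Algebra K K₁] [Algebra K M₁]
  [Algebra M M₁] [Algebra K₁ M₁] [Algebra K J] [Algebra K M₂] [Algebra M M₂] [Algebra K₁ M₂]
  [Algebra M₁ M₂] [Algebra J M₂] {ε : K₁} {δ : M ≃ₐ[K] M} {P : (ZMod p)[X]} {a₀ : M₂ˣ}

/-- Above `p` the extension `M₂/M₁` is completely split. -/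
theorem free_p (hB : SitBs p K M K₁ M₁ J M₂ ε δ P a₀) (W : HeightOneSpectrum (𝓞 M₂))
    (hW : W.valuation M₂ (p : M₂) < 1) : FreeP M₁ W := by
  have := hB.t1
  have := hB.t4
  have := hB.gJ
  have := hB.gM₂
  intro σ hσ
  have hwJ : (bel J W).valuation J (p : J) < 1 := by
    rw [← natCast_mem_iff]
    rw [← natCast_mem_iff, natCast_bel (K := J)] at hW
    exact hW
  have h1 : σ.restrictScalars K = 1 :=
    hB.lin₂ _ (fun x => σ.commutes x) (Pool.Agent.Helper79.PP.fix_of_free (K := K) W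
      (hB.splJ _ hwJ) (σ.restrictScalars K) hσ)
  apply AlgEquiv.ext
  intro x
  exact congrArg (fun τ : M₂ ≃ₐ[K] M₂ => τ x) h1

/-- Above `p` the valuation of `α` is divisible by `p`. -/
theorem alpha_p (hB : SitBs p K M K₁ M₁ J M₂ ε δ P a₀) (a : K₁ˣ)
    (hap : ∀ Q : HeightOneSpectrum (𝓞 K₁), Q.valuation K₁ (p : K₁) < 1 →
      (p : ℤ) ∣ ordv Q (a : K₁)) (W : HeightOneSpectrum (𝓞 M₂))
    (hW : W.valuation M₂ (p : M₂) < 1) :
    (p : ℤ) ∣ ordv W ((a₀ : M₂) * algebraMap K₁ M₂ (a : K₁)) := by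
  have hp0 : p ≠ 0 := hp.out.ne_zero
  obtain ⟨y, hy⟩ := hB.powp
  have h1 : LocPow p W (a₀ : M₂) := ⟨(y : M₂), (hy W hW).1⟩
  have h2 := Pool.Agent.Helper8.PP.dvd_of_locPow W hp0 h1
  have hQ : (bel K₁ W).valuation K₁ (p : K₁) < 1 := by
    rw [← natCast_mem_iff]
    rw [← natCast_mem_iff, natCast_bel (K := K₁)] at hW
    exact hW
  rw [ordv_mul W a₀.ne_zero ((_root_.map_ne_zero _).2 a.ne_zero)]
  refine dvd_add h2 ?_
  rw [ordW (M := K₁) W]
  exact (hap _ hQ).mul_left _

/-- Existence of `TauB` from a lower bound for the local conditions. -/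
theorem extB {k : Type} [NormedField k] [NormedAlgebra ℚ_[p] k] [IsUltrametricDist k]
    (hB : SitBs p K M K₁ M₁ J M₂ ε δ P a₀) (L : IwasawaLog p k) (T : Set (K →+* k))
    (B : Base p K M K₁ M₁ ε δ P) (a : K₁ˣ) (haO : OmType p K ε (a : K₁))
    (hap : ∀ Q : HeightOneSpectrum (𝓞 K₁), Q.valuation K₁ (p : K₁) < 1 →
      (p : ℤ) ∣ ordv Q (a : K₁)) (n : ℕ)
    (hlob : ∀ (𝔪₀ : Ideal (𝓞 M)) (v : Mˣ → HeightOneSpectrum (𝓞 M) → ZMod p),
      LSys δ T (up M B.S) 𝔪₀ v → ∃ F : Finset Mˣ, F.card = p ^ (P.natDegree * n) ∧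
      (∀ x ∈ F, LSat L (above T) (up M B.S) v (pol P δ x)) ∧
      ∀ x ∈ F, ∀ y ∈ F, x ≠ y → ¬ LSat L (above T) (up M B.S) v (x / y)) :
    Nonempty (TauB n B a₀ L T a) := by
  classical
  obtain ⟨_, _, _, _, _, hprim, hgen, -, hsord, hirr, hdvdP, hcopm, hc1, hc2, hnsp, -⟩ := hB.sit
  have := hB.t1
  have := hB.t2
  have := hB.t3
  have := hB.gM₂
  have hKM : IsScalarTower K M M₂ := by
    refine IsScalarTower.of_algebraMap_eq fun x => ?_
    rw [IsScalarTower.algebraMap_apply K M₁ M₂, IsScalarTower.algebraMap_apply K M M₁,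
      IsScalarTower.algebraMap_apply M M₁ M₂]
  have hp' : p.Prime := hp.out
  have hp0 : p ≠ 0 := hp'.ne_zero
  have hTRF : E_TRF := Pool.Agent.Helper40.RD.e_trf
  have hG1 : IsGalois M M₁ := IsGalois.tower_top_of_isGalois K M M₁
  have hG3 : IsGalois M₁ M₂ := IsGalois.tower_top_of_isGalois K M₁ M₂
  have hδm : δ ^ finrank K M = 1 := by rw [← hsord]; exact pow_orderOf_eq_one δ
  have hm0 : 0 < finrank K M := finrank_pos
  obtain ⟨hSf, hst, hSp, -, -, -, -⟩ := Pool.Agent.Helper16.PP.p_upr p K M B.S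
  have hSp' := hSp B.abp
  have hprim₂ : IsPrimitiveRoot (algebraMap K₁ M₂ ε) p :=
    hprim.map_of_injective (algebraMap K₁ M₂).injective
  set α : M₂ := (a₀ : M₂) * algebraMap K₁ M₂ (a : K₁) with hα
  have hα0 : α ≠ 0 := mul_ne_zero a₀.ne_zero ((_root_.map_ne_zero _).2 a.ne_zero)
  have hαO : OmType p K (algebraMap K₁ M₂ ε) α := om_alpha hB.toSitB haO
  -- the uniformizers
  have hal : ∀ q : HeightOneSpectrum (𝓞 K), ∃ al : K,
      (∃ al : K, Good p α q al) → Good p α q al := by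
    intro q
    by_cases h : ∃ al : K, Good p α q al
    · obtain ⟨al, hal⟩ := h
      exact ⟨al, fun _ => hal⟩
    · exact ⟨0, fun h' => absurd h' h⟩
  choose alq halq using hal
  obtain ⟨R, hRdef⟩ : ∃ R : Set (HeightOneSpectrum (𝓞 M)), R = {w | w ∈ up M B.S ∧ FreeP K w ∧
      ∃ al : K, Good p α (bel K w) al} := ⟨_, rfl⟩
  have hRm : ∀ w, w ∈ R ↔ (w ∈ up M B.S ∧ FreeP K w ∧ ∃ al : K, Good p α (bel K w) al) := by
    intro w
    rw [hRdef]
    exact Iff.rfl
  have hWex : ∀ w : HeightOneSpectrum (𝓞 M), ∃ W : HeightOneSpectrum (𝓞 M₂), bel M W = w :=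
    fun w => exists_bel (M₁ := M₂) w
  have hWp : ∀ W : HeightOneSpectrum (𝓞 M₂), (bel K W).valuation K (p : K) = 1 →
      W.valuation M₂ (p : M₂) = 1 := by
    intro W h
    rw [← natCast_notMem_iff, natCast_bel (K := K), natCast_notMem_iff]
    exact h
  have hR : IsDat p R (fun w => alq (bel K w)) := by
    refine ⟨hSf.subset fun w hw => ((hRm w).1 hw).1, fun w hw w' h => ?_,
      fun w hw => ((hRm w).1 hw).2.1, fun w hw => ?_, fun w hw => ?_, fun w hw => ?_,
      fun w hw w' h => ?_⟩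
    · rw [hRm] at hw ⊢
      refine ⟨hst w hw.1 w' h, free_of_conj h hw.2.1, ?_⟩
      rw [bel_eq_of_conj h]
      exact hw.2.2
    · obtain ⟨-, -, al, hal, -, -⟩ := (hRm w).1 hw
      rw [← natCast_notMem_iff, natCast_bel (K := K), natCast_notMem_iff]
      exact hal
    · obtain ⟨-, hwf, al, hal1, hal2, hal3⟩ := (hRm w).1 hw
      obtain ⟨W, hW⟩ := hWex w
      have hb : bel K W = bel K w := by rw [← bel_bel (M := M) W, hW]
      have hWp1 := hWp W (by rw [hb]; exact hal1)
      rw [absNorm_free (K := K) w hwf, ← hb]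
      refine norm_good hB.toSitB haO hWp1 (not_dvd_alpha hB.toSitB a hWp1 (al := al) ?_ ?_).1
      · rw [hb, hal2]
        intro h
        have h2 := Int.eq_one_of_dvd_one (by positivity) h
        exact hp'.one_lt.ne' (by exact_mod_cast h2)
      · exact hal3 W (by rw [← hb]; exact above_bel W)
    · obtain ⟨-, hwf, hex⟩ := (hRm w).1 hw
      rw [free_ord (K := K) w hwf]
      exact (halq _ hex).2.1
    · show alq (bel K w') = alq (bel K w)
      rw [bel_eq_of_conj h]
  obtain ⟨𝔪₀, v, hv, hker⟩ := d_val p k K M δ T R _ hR (up M B.S) hSf hst hSp'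
    (fun w hw => ((hRm w).1 hw).1)
  obtain ⟨G, hG, hGp, hGδ⟩ := Pool.Agent.Helper90.RP.s_sub p k L K M δ T (up M B.S) 𝔪₀ v hv
  obtain ⟨F, hFc, hF1, hF2⟩ := hlob 𝔪₀ v hv
  obtain ⟨h, hhP, hhG, hhI⟩ := (Pool.Agent.Helper91.PP.p_sep p K M (finrank K M) δ P hm0 hcopm
    hδm hirr hdvdP G hGp hGδ).2 n ⟨F, hFc, fun x hx => (hG _).2 (hF1 x hx),
      fun x hx y hy hxy hxG => hF2 x hx y hy hxy ((hG _).1 hxG)⟩
  obtain ⟨Gl, hGL, -, -, -, hGL5⟩ := Pool.Agent.Helper74.PP.p_lfi p K M (up M B.S) hSf hSp' hst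
  -- the comparison
  have hcmp : ∀ w ∈ up M B.S, ∀ x : Mˣ, Pw p (pol P δ x) → (∀ W ∈ up M₂ B.S,
      LocAt p W α (algebraMap M M₂ (x : M))) →
      LocD p R (fun w => alq (bel K w)) w (x : M) := by
    intro w hw x hx hloc
    obtain ⟨W, hW⟩ := hWex w
    have hb : bel K W = bel K w := by rw [← bel_bel (M := M) W, hW]
    have hWS : ∀ W' : HeightOneSpectrum (𝓞 M₂), bel K W' = bel K w → W' ∈ up M₂ B.S := by
      intro W' hW'
      obtain ⟨q, hq, hab⟩ := hw
      refine ⟨q, hq, ?_⟩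
      rw [← bel_of_above hab, ← hW']
      exact above_bel W'
    by_cases hwf : FreeP K w
    swap
    · exact ⟨fun _ => hnsp w hwf x hx, fun h => absurd ((hRm w).1 h).2.1 hwf⟩
    by_cases hvp : (bel K w).valuation K (p : K) = 1
    · -- `w` does not divide `p`
      have hWp1 := hWp W (by rw [hb]; exact hvp)
      obtain ⟨x', hx'⟩ := exists_close (K := K) w hwf (x : M) x.ne_zero
      have hx'W : W.valuation M₂ (algebraMap K M₂ x' / algebraMap M M₂ (x : M) - 1) < 1 := by
        have e : algebraMap K M₂ x' / algebraMap M M₂ (x : M) - 1 =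
            algebraMap M M₂ (algebraMap K M x' / (x : M) - 1) := by
          rw [map_sub, map_div₀, map_one, ← IsScalarTower.algebraMap_apply K M M₂]
        rw [e, valW (M := M) W, hW]
        exact pow_lt_one₀ zero_le hx'
          (Pool.Agent.Helper79.PP.ram_ne (A := M) W |> fun h => by rw [hW] at h; exact h)
      have hxM₂ : algebraMap M M₂ (x : M) ≠ 0 := (_root_.map_ne_zero _).2 x.ne_zero
      have hlW : LocAt p W α (algebraMap K M₂ x') :=
        locAt_close W hp0 hxM₂ hx'W (hloc W (hWS W hb))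
      have hlall : ∀ W' : HeightOneSpectrum (𝓞 M₂), Above W' (bel K w) →
          LocAt p W' α (algebraMap K M₂ x') := by
        intro W' hW'
        obtain ⟨g, hg⟩ := conj_of_bel' (K := K) (w := W') (v := W)
          ((bel_of_above hW').trans hb.symm)
        have h5 := locAt_conj hprim₂ hα0 hαO g hg hlW
        rwa [g.commutes] at h5
      have hx'0 : x' ≠ 0 := by
        rintro rfl
        rw [map_zero, zero_div, zero_sub, Valuation.map_neg, map_one] at hx'
        exact lt_irrefl _ hx'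
      have hordx : ordv (bel K w) x' = ordv w (x : M) := by
        rw [← free_ord (K := K) w hwf]
        exact ordv_eq_of_div w x.ne_zero hx'
      refine ⟨fun hwR => ?_, fun hwR => ?_⟩
      · by_contra hnd
        apply hwR
        rw [hRm]
        refine ⟨hw, hwf, good_of hα0 hvp (x := x') ?_ hlall⟩
        rw [hordx]
        exact hnd
      · obtain ⟨-, -, hex⟩ := (hRm w).1 hwR
        obtain ⟨-, hal1, hal2⟩ := halq _ hex
        have hnd1 : ¬ (p : ℤ) ∣ ordv (bel K W) (alq (bel K w)) := by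
          rw [hb, hal1]
          intro h
          have h2 := Int.eq_one_of_dvd_one (by positivity) h
          exact hp'.one_lt.ne' (by exact_mod_cast h2)
        obtain ⟨j, hj⟩ := one_dim hB.toSitB a hWp1 hnd1
          (hal2 W (by rw [← hb]; exact above_bel W)) hx'0 hlW
        refine ⟨j, ?_⟩
        rw [hb] at hj
        have h6 := Pool.Agent.Helper17.RL.locPow_up p (M := K) (M₁ := M) (W := w)
          (w := bel K w) (above_bel w) _ hj
        have h7 : w.valuation M ((x : M) / algebraMap K M x' - 1) < 1 := by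
          have h8 := val_inv_sub w hx'
          rwa [inv_div] at h8
        have h9 := locPow_mul w (locPow_of_sub (p := p) w h7) h6
        have hx'M : algebraMap K M x' ≠ 0 := (_root_.map_ne_zero _).2 hx'0
        have e : (x : M) / algebraMap K M x' * algebraMap K M (x' * alq (bel K w) ^ j) =
            (x : M) * (algebraMap K M (alq (bel K w))) ^ j := by
          rw [map_mul, map_pow]
          field_simp
        rwa [e] at h9
    · -- `w` divides `p`
      have hvp' : (bel K w).valuation K (p : K) < 1 := by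
        refine lt_of_le_of_ne ?_ hvp
        simpa using (bel K w).valuation_le_one (K := K) (p : 𝓞 K)
      have hWp' : W.valuation M₂ (p : M₂) < 1 := by
        rw [← natCast_mem_iff, natCast_bel (K := K), hb, natCast_mem_iff]
        exact hvp'
      refine ⟨fun _ => ?_, fun hwR => ?_⟩
      · have h1 := (hloc W (hWS W hb)).1 (alpha_p hB a hap W hWp')
        rw [IsScalarTower.algebraMap_apply M M₁ M₂,
          free_ord (K := M₁) W (free_p hB W hWp')] at h1
        have hab : Above (bel M₁ W) w := by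
          rw [← hW]
          exact congrArg HeightOneSpectrum.asIdeal (bel_bel (K := M) (M := M₁) W)
        exact ((hTRF p M M₁ hc1 _ w hab).1 _).1 h1
      · obtain ⟨-, -, al, hal, -, -⟩ := (hRm w).1 hwR
        exact absurd hal hvp
  refine ⟨⟨⟨h, hhP, ?_, hhI⟩, ?_⟩⟩
  · intro j x hx
    refine hhG _ x ((hG x).2 ⟨fun w hw => (hker x w hw).2 ?_, ?_⟩)
    · have h6 := hGL5 x ((hGL x).2 hx) w hw
      refine ⟨fun _ => h6.1, fun _ => ⟨0, ?_⟩⟩
      rw [pow_zero, mul_one]
      exact h6.2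
    · obtain ⟨y, hy⟩ := hx
      refine locSig_mul_pow L _ x y
        (Pool.Agent.Helper59.RP.s_bin p k L M (above T) (x * y ^ p) fun τ hτ => ?_)
      have h6 := (hy (wt p τ) (hSp' _ (wt_p p τ))).2
      rw [← map_pow] at h6
      have h7 := norm_small_of_val p τ h6
      rw [map_sub, map_one] at h7
      rw [Units.val_mul, Units.val_pow_eq_pow_val]
      exact h7
  · intro j x hx hloc hsig
    exact hhG _ x ((hG x).2 ⟨fun w hw => (hker x w hw).2 (hcmp w hw x hx hloc), hsig⟩)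

end main

/-- **V_EXT.** -/
theorem v_ext : V_EXT := by
  intro p hp k _ _ _ K M K₁ M₁ J M₂ _ _ _ _ _ _ _ _ _ _ _ _ _ _ _ _ _ _ _ _ _ _ _ ε δ P a₀ hB L
    T B _ aτ haO hap n hlob
  exact extB hB L T B aτ haO hap n hlob

end Pool.Agent.Helper94.PB
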