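import Pool.Agent.Helper94.PB.VLOC2
import Pool.Agent.Helper8.LE.ADD

/-!
# Project B (MP_fc6b1e_nt): local lemmas for V_EXT, III
-/

set_option autoImplicit false
set_option linter.unusedSectionVars false

namespace Pool.Agent.Helper94.PB

open NumberField Polynomial Module IsDedekindDomain Pool.Agent.Helper51.SigLeo
open Pool.Agent.Helper51.RP Pool.Agent.Helper42.RD Pool.Agent.Helper42.PP
open Pool.Agent.Helper42.PP1 (SitW)
open Pool.Agent.Helper42.PB
open Pool.Agent.Helper40.RS (bel gw bel_smul lies conj_of_bel free_gw absNorm_free val_smul efg)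
open Pool.Agent.Helper40.RD (bel_of_above ordW valW)
open Pool.Agent.Helper13.RD (eq_gw eq_of_val)

/-- Solution of a linear congruence. -/
theorem exists_cong {p : ℕ} (hp : p.Prime) {n₁ : ℕ} (h1 : ¬ p ∣ n₁) (n₂ : ℕ) :
    ∃ j : ℕ, p ∣ n₂ + j * n₁ := by
  have h3 : n₁.Coprime p := ((hp.coprime_iff_not_dvd).2 h1).symm
  obtain ⟨m, -, hm⟩ := Nat.exists_mul_mod_eq_one_of_coprime h3 hp.one_lt
  refine ⟨(p - 1) * n₂ * m, ?_⟩
  have h4 : n₁ * m ≡ 1 [MOD p] := by rw [Nat.ModEq, hm, Nat.mod_eq_of_lt hp.one_lt]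
  have h5 : n₂ + (p - 1) * n₂ * m * n₁ ≡ n₂ + (p - 1) * n₂ * 1 [MOD p] := by
    have e : (p - 1) * n₂ * m * n₁ = (p - 1) * n₂ * (n₁ * m) := by ring
    rw [e]
    exact (h4.mul_left _).add_left _
  have h6 : n₂ + (p - 1) * n₂ * 1 = p * n₂ := by
    obtain ⟨q, rfl⟩ : ∃ q, p = q + 1 := ⟨p - 1, by have := hp.one_le; omega⟩
    rw [Nat.add_sub_cancel]
    ring
  rw [h6] at h5
  exact (Nat.modEq_zero_iff_dvd).1 (h5.trans ((Nat.modEq_zero_iff_dvd).2 (dvd_mul_right _ _)))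

section main

variable {p : ℕ} [hp : Fact p.Prime] {K M K₁ M₁ J M₂ : Type} [Field K] [NumberField K] [Field M]
  [NumberField M] [Field K₁] [NumberField K₁] [Field M₁] [NumberField M₁] [Field J]
  [NumberField J] [Field M₂] [NumberField M₂] [Algebra K M] [Algebra K K₁] [Algebra K M₁]
  [Algebra M M₁] [Algebra K₁ M₁] [Algebra K J] [Algebra K M₂] [Algebra M M₂] [Algebra K₁ M₂]
  [Algebra M₁ M₂] [Algebra J M₂] {ε : K₁} {δ : M ≃ₐ[K] M} {P : (ZMod p)[X]} {a₀ : M₂ˣ}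

/-- The product of `a₀` and of an element of type `ω` of `K₁`. -/
theorem om_alpha (hB : SitB p K M K₁ M₁ J M₂ ε δ P a₀) {a : K₁ˣ} (ha : OmType p K ε (a : K₁)) :
    OmType p K (algebraMap K₁ M₂ ε) ((a₀ : M₂) * algebraMap K₁ M₂ (a : K₁)) := by
  have := hB.sit.st2
  have := hB.sit.gK
  have := hB.t1
  have := hB.t3
  have := hB.gM₂
  have hKK : IsScalarTower K K₁ M₂ := by
    refine IsScalarTower.of_algebraMap_eq fun x => ?_
    rw [IsScalarTower.algebraMap_apply K M₁ M₂, IsScalarTower.algebraMap_apply K K₁ M₁,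
      IsScalarTower.algebraMap_apply K₁ M₁ M₂]
  have hprim₂ : IsPrimitiveRoot (algebraMap K₁ M₂ ε) p :=
    hB.sit.prim.map_of_injective (algebraMap K₁ M₂).injective
  refine Pool.Agent.Helper8.LE.om_mul hp.out hprim₂ hB.om ?_
  intro g
  obtain ⟨n, c, hn, hc⟩ := ha (AlgEquiv.restrictNormal g K₁)
  have hgK : ∀ y : K₁, algebraMap K₁ M₂ (AlgEquiv.restrictNormal g K₁ y) =
      g (algebraMap K₁ M₂ y) := fun y => AlgEquiv.restrictNormal_commutes g K₁ y
  refine ⟨n, algebraMap K₁ M₂ c, ?_, ?_⟩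
  · rw [← hgK, hn, map_pow]
  · rw [← hgK, hc, map_mul, map_pow, map_pow]

/-- `Gal(M₂/M₁)` is cyclic of order a power of `p`. -/
theorem gal_cyc (hB : SitB p K M K₁ M₁ J M₂ ε δ P a₀) : IsCyclic (M₂ ≃ₐ[M₁] M₂) ∧
    ∃ l : ℕ, Nat.card (M₂ ≃ₐ[M₁] M₂) = p ^ l := by
  have := hB.t1
  have := hB.t4
  have := hB.gJ
  have := hB.gM₂
  have := hB.cycJ
  obtain ⟨l, hl⟩ := hB.degJ
  let f : (M₂ ≃ₐ[M₁] M₂) →* (J ≃ₐ[K] J) :=
    (AlgEquiv.restrictNormalHom J).comp (AlgEquiv.restrictScalarsHom K)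
  have hf : Function.Injective f := by
    rw [injective_iff_map_eq_one]
    intro σ hσ
    have h1 : σ.restrictScalars K = 1 := by
      apply hB.lin₂ _ (fun x => σ.commutes x)
      intro x
      have h2 := AlgEquiv.restrictNormal_commutes (σ.restrictScalars K) J x
      have h3 : AlgEquiv.restrictNormal (σ.restrictScalars K) J = 1 := hσ
      rw [h3] at h2
      exact h2.symm
    apply AlgEquiv.ext
    intro x
    exact congrArg (fun τ : M₂ ≃ₐ[K] M₂ => τ x) h1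
  refine ⟨isCyclic_of_injective f hf, ?_⟩
  have h1 := Subgroup.card_dvd_of_injective f hf
  rw [IsGalois.card_aut_eq_finrank K J, hl] at h1
  obtain ⟨k, -, hk⟩ := (Nat.dvd_prime_pow hp.out).1 h1
  exact ⟨k, hk⟩

/-- At a prime with nontrivial decomposition group over `M₁`. -/
theorem dvd_of_dec (hB : SitB p K M K₁ M₁ J M₂ ε δ P a₀) (W : HeightOneSpectrum (𝓞 M₂))
    (hW : W.valuation M₂ (p : M₂) = 1) (σ : M₂ ≃ₐ[K] M₂)
    (h1 : ∀ x : M₁, σ (algebraMap M₁ M₂ x) = algebraMap M₁ M₂ x) (h2 : σ ≠ 1)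
    (hσ : ∀ y : M₂, W.valuation M₂ (σ y) = W.valuation M₂ y) (a : K₁ˣ) {t : M₁} (ht : t ≠ 0)
    {i : ℕ} (hi : LocPow p W (algebraMap M₁ M₂ t *
      ((-1) ^ (p - 1) * ((a₀ : M₂) * algebraMap K₁ M₂ (a : K₁))) ^ i)) : p ∣ i := by
  have hp0 : p ≠ 0 := hp.out.ne_zero
  have := hB.t2
  have := hB.t3
  set A : M₂ := (-1) ^ (p - 1) * ((a₀ : M₂) * algebraMap K₁ M₂ (a : K₁)) with hA
  have hA0 : A ≠ 0 := mul_ne_zero (pow_ne_zero _ (neg_ne_zero.2 one_ne_zero))
    (mul_ne_zero a₀.ne_zero ((_root_.map_ne_zero _).2 a.ne_zero))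
  by_contra hpi
  obtain ⟨j, hj⟩ : ∃ j : ℕ, i * j ≡ 1 [MOD p] := by
    have h3 : i.Coprime p := ((hp.out.coprime_iff_not_dvd).2 hpi).symm
    exact Nat.exists_mul_mod_eq_one_of_coprime h3 hp.out.one_lt |>.imp fun j h => by
      rw [Nat.ModEq, h.2, Nat.mod_eq_of_lt hp.out.one_lt]
  obtain ⟨q, hq⟩ : ∃ q : ℕ, i * j = 1 + p * q := by
    have h4 : 1 ≤ i * j := by
      rw [Nat.one_le_iff_ne_zero]
      intro h0
      rw [h0] at hj
      have := (Nat.modEq_iff_dvd' (Nat.zero_le 1)).1 hj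
      rw [Nat.sub_zero, Nat.dvd_one] at this
      exact hp.out.one_lt.ne' this
    obtain ⟨q, hq⟩ := (Nat.modEq_iff_dvd' h4).1 hj.symm
    exact ⟨q, by omega⟩
  have h5 := locPow_pow W hi j
  have e : (algebraMap M₁ M₂ t * A ^ i) ^ j = (a₀ : M₂) * algebraMap M₁ M₂
      (t ^ j * ((-1) ^ (p - 1) * algebraMap K₁ M₁ (a : K₁))) * (A ^ q) ^ p := by
    rw [mul_pow, ← pow_mul, hq, pow_add, pow_one, map_mul, map_mul, map_pow, map_pow, map_neg,
      map_one, ← IsScalarTower.algebraMap_apply K₁ M₁ M₂, ← pow_mul, mul_comm q p]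
    nth_rewrite 1 [hA]
    ring
  rw [e] at h5
  refine no_locPow hB W hW σ h1 h2 hσ _ ?_ ((locPow_mul_pth W (pow_ne_zero _ hA0)).1 h5)
  exact mul_ne_zero (pow_ne_zero _ ht)
    (mul_ne_zero (pow_ne_zero _ (neg_ne_zero.2 one_ne_zero))
      ((_root_.map_ne_zero _).2 a.ne_zero))

/-- The degree of `M₁/K` is prime to `p`. -/
theorem cop_KM₁ {K M K₁ M₁ : Type} [Field K] [NumberField K] [Field M] [NumberField M]
    [Field K₁] [NumberField K₁] [Field M₁] [NumberField M₁] [Algebra K M] [Algebra K K₁]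
    [Algebra K M₁] [Algebra M M₁] [Algebra K₁ M₁] {ε : K₁} {δ : M ≃ₐ[K] M} {P : (ZMod p)[X]}
    (hs : SitW p K M K₁ M₁ ε δ P) : (finrank K M₁).Coprime p := by
  have := hs.st1
  have hfd : FiniteDimensional K M := Module.Finite.of_restrictScalars_finite ℚ K M
  have hfd2 : FiniteDimensional M M₁ := Module.Finite.of_restrictScalars_finite ℚ M M₁
  rw [← Module.finrank_mul_finrank K M M₁]
  exact Nat.Coprime.mul_left hs.copm hs.c1

/-- If an element of `K` of valuation `1` satisfies the local condition then the valuation of `α` is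
prime to `p`. -/
theorem not_dvd_alpha (hB : SitB p K M K₁ M₁ J M₂ ε δ P a₀) (a : K₁ˣ)
    {W : HeightOneSpectrum (𝓞 M₂)} (hW : W.valuation M₂ (p : M₂) = 1) {al : K}
    (hal : ¬ (p : ℤ) ∣ ordv (bel K W) al)
    (hal2 : LocAt p W ((a₀ : M₂) * algebraMap K₁ M₂ (a : K₁)) (algebraMap K M₂ al)) :
    ¬ (p : ℤ) ∣ ordv W ((a₀ : M₂) * algebraMap K₁ M₂ (a : K₁)) ∧
      ¬ (p : ℤ) ∣ ordv (bel M₁ W) (algebraMap K M₁ al) := by
  have := hB.sit.gMK
  have := hB.t1
  have hTRF : E_TRF := Pool.Agent.Helper40.RD.e_trf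
  have hab : Above (bel M₁ W) (bel K W) := by
    have h := bel_bel (K := K) (M := M₁) W
    exact congrArg HeightOneSpectrum.asIdeal h
  have h1 : ¬ (p : ℤ) ∣ ordv (bel M₁ W) (algebraMap K M₁ al) := by
    rw [(hTRF p K M₁ (cop_KM₁ hB.sit) _ _ hab).1 al]
    exact hal
  refine ⟨fun h => ?_, h1⟩
  have h2 := hal2.1 h
  rw [IsScalarTower.algebraMap_apply K M₁ M₂, ordW (M := M₁) W] at h2
  refine ord_of_ram hB W hW (fun hr => ?_) a h
  rw [hr, Nat.cast_one, one_mul] at h2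
  exact h1 h2

/-- The classes which satisfy the local condition form a line. -/
theorem one_dim (hB : SitB p K M K₁ M₁ J M₂ ε δ P a₀) (a : K₁ˣ)
    {W : HeightOneSpectrum (𝓞 M₂)} (hW : W.valuation M₂ (p : M₂) = 1) {al : K}
    (hal : ¬ (p : ℤ) ∣ ordv (bel K W) al)
    (hal2 : LocAt p W ((a₀ : M₂) * algebraMap K₁ M₂ (a : K₁)) (algebraMap K M₂ al)) {x : K}
    (hx0 : x ≠ 0)
    (hx : LocAt p W ((a₀ : M₂) * algebraMap K₁ M₂ (a : K₁)) (algebraMap K M₂ x)) :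
    ∃ j : ℕ, LocPow p (bel K W) (x * al ^ j) := by
  classical
  have hp' := hp.out
  have hp0 : p ≠ 0 := hp'.ne_zero
  have := hB.sit.gMK
  have := hB.t1
  have := hB.t3
  have := hB.gM₂
  have hG : IsGalois M₁ M₂ := IsGalois.tower_top_of_isGalois K M₁ M₂
  have hTRF : E_TRF := Pool.Agent.Helper40.RD.e_trf
  have hab : Above (bel M₁ W) (bel K W) :=
    congrArg HeightOneSpectrum.asIdeal (bel_bel (K := K) (M := M₁) W)
  obtain ⟨hα, hal1⟩ := not_dvd_alpha hB a hW hal hal2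
  obtain ⟨hcyc, l, hcard⟩ := gal_cyc hB
  have hal0 : al ≠ 0 := by
    rintro rfl
    apply hal
    unfold ordv
    rw [map_zero, WithZero.log_zero, neg_zero]
    exact dvd_zero _
  have hal1' : algebraMap K M₁ al ≠ 0 := (_root_.map_ne_zero _).2 hal0
  have hx1' : algebraMap K M₁ x ≠ 0 := (_root_.map_ne_zero _).2 hx0
  suffices h : ∃ j : ℕ, LocPow p (bel M₁ W) (algebraMap K M₁ x * algebraMap K M₁ al ^ j) by
    obtain ⟨j, hj⟩ := h
    refine ⟨j, ?_⟩
    rw [← map_pow, ← map_mul] at hj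
    exact ((hTRF p K M₁ (cop_KM₁ hB.sit) _ _ hab).2 _).1 hj
  obtain ⟨n₁, h₁⟩ := hal2.2 hα
  obtain ⟨n₂, h₂⟩ := hx.2 hα
  rw [IsScalarTower.algebraMap_apply K M₁ M₂] at h₁ h₂
  -- decomposition group
  have hdec : ∀ (t : M₁), t ≠ 0 → ∀ i : ℕ, LocPow p W (algebraMap M₁ M₂ t *
      ((-1) ^ (p - 1) * ((a₀ : M₂) * algebraMap K₁ M₂ (a : K₁))) ^ i) → ¬ p ∣ i →
      ∀ σ : M₂ ≃ₐ[M₁] M₂, (∀ z : M₂, W.valuation M₂ (σ z) = W.valuation M₂ z) → σ = 1 := by
    intro t ht i hi hpi σ hσ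
    by_contra hne
    refine hpi (dvd_of_dec hB W hW (σ.restrictScalars K) (fun x => σ.commutes x) (fun h => hne ?_)
      hσ a ht hi)
    apply AlgEquiv.ext
    intro z
    exact congrArg (fun τ : M₂ ≃ₐ[K] M₂ => τ z) h
  have htriv : (∀ σ : M₂ ≃ₐ[M₁] M₂, (∀ z : M₂, W.valuation M₂ (σ z) = W.valuation M₂ z) → σ = 1) →
      ∀ t : M₁, LocPow p W (algebraMap M₁ M₂ t) → LocPow p (bel M₁ W) t := by
    rintro hone t ⟨y, hy⟩
    refine locPow_down hcard W hW hy fun σ hσ => ?_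
    rw [hone σ hσ]
    have hy0 : y ≠ 0 := by
      rintro rfl
      rw [zero_pow hp0, mul_zero, zero_sub, Valuation.map_neg, map_one] at hy
      exact lt_irrefl _ hy
    show W.valuation M₂ (y / y - 1) < 1
    rw [div_self hy0, sub_self, map_zero]
    exact zero_lt_one
  set A : M₂ := (-1) ^ (p - 1) * ((a₀ : M₂) * algebraMap K₁ M₂ (a : K₁)) with hA
  have hA0 : A ≠ 0 := mul_ne_zero (pow_ne_zero _ (neg_ne_zero.2 one_ne_zero))
    (mul_ne_zero a₀.ne_zero ((_root_.map_ne_zero _).2 a.ne_zero))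
  have hdrop : ∀ (t : M₂) (i : ℕ), p ∣ i → LocPow p W (t * A ^ i) → LocPow p W t := by
    rintro t i ⟨q, rfl⟩ h
    rw [mul_comm p q, pow_mul] at h
    exact (locPow_mul_pth W (pow_ne_zero _ hA0)).1 h
  by_cases hn₁ : p ∣ n₁
  · have hal3 := hdrop _ _ hn₁ h₁
    have hn₂ : p ∣ n₂ := by
      by_contra hn₂
      have h3 := htriv (hdec _ hx1' _ h₂ hn₂) _ hal3
      exact hal1 (Pool.Agent.Helper8.PP.dvd_of_locPow _ hp0 h3)
    have hx3 := hdrop _ _ hn₂ h₂
    obtain ⟨y₁, hy₁⟩ := hal3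
    obtain ⟨y₂, hy₂⟩ := hx3
    have hne : ∀ (t y : M₂), W.valuation M₂ (t * y ^ p - 1) < 1 → y ≠ 0 := by
      rintro t y hy rfl
      rw [zero_pow hp0, mul_zero, zero_sub, Valuation.map_neg, map_one] at hy
      exact lt_irrefl _ hy
    have hy₁0 := hne _ _ hy₁
    have hy₂0 := hne _ _ hy₂
    have hprim₂ : IsPrimitiveRoot (algebraMap K₁ M₂ ε) p :=
      hB.sit.prim.map_of_injective (algebraMap K₁ M₂).injective
    -- the generator of the decomposition group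
    let D : Subgroup (M₂ ≃ₐ[M₁] M₂) :=
      { carrier := {σ | ∀ z : M₂, W.valuation M₂ (σ z) = W.valuation M₂ z}
        mul_mem' := by
          intro a b ha hb z
          show W.valuation M₂ (a (b z)) = _
          rw [ha, hb]
        one_mem' := fun z => rfl
        inv_mem' := by
          intro a ha z
          have h := ha (a⁻¹ z)
          have h2 : a ((a⁻¹ : M₂ ≃ₐ[M₁] M₂) z) = z := AlgEquiv.apply_symm_apply a z
          rw [h2] at h
          exact h.symm }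
    obtain ⟨⟨σ₀, hσ₀⟩, hgen⟩ := IsCyclic.exists_generator (α := D)
    have hσ₀' : ∀ z : M₂, W.valuation M₂ (σ₀ z) = W.valuation M₂ z := hσ₀
    have hroot : ∀ (t : M₁) (y : M₂), t ≠ 0 → y ≠ 0 →
        W.valuation M₂ (algebraMap M₁ M₂ t * y ^ p - 1) < 1 → ∃ k : ℕ,
        W.valuation M₂ (σ₀ y / y * ((algebraMap K₁ M₂ ε) ^ k)⁻¹ - 1) < 1 := by
      intro t y ht hy0 hy
      have h3 : W.valuation M₂ (σ₀ (algebraMap M₁ M₂ t * y ^ p) - 1) < 1 := by
        have h4 := hσ₀' (algebraMap M₁ M₂ t * y ^ p - 1)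
        rw [map_sub, map_one] at h4
        rw [h4]
        exact hy
      have h4 := val_mul_sub W h3 (val_inv_sub W hy)
      have ht' : algebraMap M₁ M₂ t ≠ 0 := (_root_.map_ne_zero _).2 ht
      have e : σ₀ (algebraMap M₁ M₂ t * y ^ p) * (algebraMap M₁ M₂ t * y ^ p)⁻¹ =
          (σ₀ y / y) ^ p := by
        rw [map_mul, map_pow, σ₀.commutes, div_pow]
        field_simp
      rw [e] at h4
      exact root_close W hprim₂ h4
    obtain ⟨k₁, hk₁⟩ := hroot _ _ hal1' hy₁0 hy₁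
    obtain ⟨k₂, hk₂⟩ := hroot _ _ hx1' hy₂0 hy₂
    have hpow : ∀ z : M₂, z ≠ 0 → W.valuation M₂ (σ₀ z / z - 1) < 1 →
        ∀ σ : M₂ ≃ₐ[M₁] M₂, (∀ z : M₂, W.valuation M₂ (σ z) = W.valuation M₂ z) →
        W.valuation M₂ (σ z / z - 1) < 1 := by
      intro z hz0 hz σ hσ
      have h3 := hgen ⟨σ, hσ⟩
      obtain ⟨n, hn⟩ := (mem_powers_iff_mem_zpowers.2 h3)
      have hn' : σ₀ ^ n = σ := congrArg Subtype.val hn
      rw [← hn']
      clear hn hn' h3
      have hval : ∀ (n : ℕ) (y : M₂), W.valuation M₂ ((σ₀ ^ n) y) = W.valuation M₂ y := by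
        intro n
        induction n with
        | zero => intro y; rfl
        | succ n ih =>
          intro y
          rw [pow_succ]
          show W.valuation M₂ ((σ₀ ^ n) (σ₀ y)) = _
          rw [ih, hσ₀']
      induction n with
      | zero =>
        show W.valuation M₂ (z / z - 1) < 1
        rw [div_self hz0, sub_self, map_zero]
        exact zero_lt_one
      | succ n ih =>
        have h4 : W.valuation M₂ ((σ₀ ^ n) (σ₀ z / z) - 1) < 1 := by
          have h5 := hval n (σ₀ z / z - 1)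
          rw [map_sub, map_one] at h5
          rw [h5]
          exact hz
        have h5 := val_mul_sub W h4 ih
        have e : (σ₀ ^ n) (σ₀ z / z) * ((σ₀ ^ n) z / z) = (σ₀ ^ (n + 1)) z / z := by
          have h6 : (σ₀ ^ n) z ≠ 0 := (map_ne_zero_iff _ (σ₀ ^ n).injective).2 hz0
          have h7 : (σ₀ ^ (n + 1)) z = (σ₀ ^ n) (σ₀ z) := by rw [pow_succ]; rfl
          rw [h7, map_div₀]
          field_simp
        rwa [e] at h5
    have hone : ∀ k : ℕ, p ∣ k → (algebraMap K₁ M₂ ε) ^ k = 1 := by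
      rintro k ⟨q, rfl⟩
      rw [pow_mul, hprim₂.pow_eq_one, one_pow]
    have hk₁p : ¬ p ∣ k₁ := by
      intro h
      rw [hone k₁ h, inv_one, mul_one] at hk₁
      have h3 := locPow_down hcard W hW hy₁ (hpow y₁ hy₁0 hk₁)
      exact hal1 (Pool.Agent.Helper8.PP.dvd_of_locPow _ hp0 h3)
    obtain ⟨j, hj⟩ := exists_cong hp' hk₁p k₂
    refine ⟨j, ?_⟩
    have hy0 : y₂ * y₁ ^ j ≠ 0 := mul_ne_zero hy₂0 (pow_ne_zero _ hy₁0)
    refine locPow_down (y := y₂ * y₁ ^ j) hcard W hW ?_ (hpow _ hy0 ?_)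
    · have h3 := val_mul_sub W hy₂ (val_pow_sub W hy₁ j)
      have e : algebraMap M₁ M₂ (algebraMap K M₁ x) * y₂ ^ p *
          (algebraMap M₁ M₂ (algebraMap K M₁ al) * y₁ ^ p) ^ j =
          algebraMap M₁ M₂ (algebraMap K M₁ x * algebraMap K M₁ al ^ j) * (y₂ * y₁ ^ j) ^ p := by
        rw [map_mul, map_pow]
        ring
      rwa [e] at h3
    · have h3 := val_mul_sub W hk₂ (val_pow_sub W hk₁ j)
      have hε0 : algebraMap K₁ M₂ ε ≠ 0 := hprim₂.ne_zero hp0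
      have e : σ₀ y₂ / y₂ * ((algebraMap K₁ M₂ ε) ^ k₂)⁻¹ *
          (σ₀ y₁ / y₁ * ((algebraMap K₁ M₂ ε) ^ k₁)⁻¹) ^ j =
          σ₀ (y₂ * y₁ ^ j) / (y₂ * y₁ ^ j) * ((algebraMap K₁ M₂ ε) ^ (k₂ + j * k₁))⁻¹ := by
        rw [map_mul, map_pow, pow_add, mul_comm j k₁, pow_mul, mul_pow, div_pow, inv_pow]
        field_simp
      rw [e, hone _ hj, inv_one, mul_one] at h3
      exact h3
  · have hone := hdec _ hal1' _ h₁ hn₁
    obtain ⟨j, hj⟩ := exists_cong hp' hn₁ n₂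
    refine ⟨j, htriv hone _ (hdrop _ _ hj ?_)⟩
    have h3 := locPow_mul W h₂ (locPow_pow W h₁ j)
    have e : algebraMap M₁ M₂ (algebraMap K M₁ x) * A ^ n₂ *
        (algebraMap M₁ M₂ (algebraMap K M₁ al) * A ^ n₁) ^ j =
        algebraMap M₁ M₂ (algebraMap K M₁ x * algebraMap K M₁ al ^ j) * A ^ (n₂ + j * n₁) := by
      rw [map_mul, map_pow, pow_add, mul_comm j n₁, pow_mul]
      ring
    rwa [e] at h3

/-- The norm of a good prime. -/
theorem norm_good (hB : SitB p K M K₁ M₁ J M₂ ε δ P a₀) {a : K₁ˣ}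
    (ha : OmType p K ε (a : K₁)) {W : HeightOneSpectrum (𝓞 M₂)}
    (hW : W.valuation M₂ (p : M₂) = 1)
    (hα : ¬ (p : ℤ) ∣ ordv W ((a₀ : M₂) * algebraMap K₁ M₂ (a : K₁))) :
    p ∣ Ideal.absNorm (bel K W).asIdeal - 1 := by
  have := hB.sit.st2
  have := hB.sit.gK
  have := hB.t1
  have := hB.t3
  have := hB.gM₂
  have hKK : IsScalarTower K K₁ M₂ := by
    refine IsScalarTower.of_algebraMap_eq fun x => ?_
    rw [IsScalarTower.algebraMap_apply K M₁ M₂, IsScalarTower.algebraMap_apply K K₁ M₁,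
      IsScalarTower.algebraMap_apply K₁ M₁ M₂]
  have hprim₂ : IsPrimitiveRoot (algebraMap K₁ M₂ ε) p :=
    hB.sit.prim.map_of_injective (algebraMap K₁ M₂).injective
  have hα0 : (a₀ : M₂) * algebraMap K₁ M₂ (a : K₁) ≠ 0 :=
    mul_ne_zero a₀.ne_zero ((_root_.map_ne_zero _).2 a.ne_zero)
  have hf : FreeP K (bel K₁ W) := by
    intro g hg
    obtain ⟨g', hg1, hg2⟩ := lift_dec (K := K) (A := K₁) W g hg
    apply hB.sit.gen
    have h1 := fix_eps hprim₂ hα0 (om_alpha hB ha) g' hg1 hα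
    rw [hg2] at h1
    exact (algebraMap K₁ M₂).injective h1
  have hQ : (bel K₁ W).valuation K₁ (p : K₁) = 1 := by
    rw [← natCast_notMem_iff]
    rw [← natCast_notMem_iff, natCast_bel (K := K₁)] at hW
    exact hW
  have h1 := Pool.Agent.Helper64.PP.norm_dvd hB.sit.prim _ hQ
  rw [absNorm_free (K := K) _ hf, bel_bel (K := K) (M := K₁) W] at h1
  exact h1

end main

end Pool.Agent.Helper94.PB
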