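import Pool.Agent.Helper18.PB.Defs

/-!
# F6: polyhedral approximation of a norm (helper94)
-/

set_option autoImplicit false

namespace Pool.Agent.Helper94.PB

open Pool.Agent.Helper18.PB Metric

universe v

theorem f6 : GPoly.{v} := by
  intro n Y _ _ L ε hε
  haveI : FiniteDimensional ℝ Y := L.toLinearEquiv.finiteDimensional
  haveI : ProperSpace (Y →L[ℝ] ℝ) := FiniteDimensional.proper ℝ (Y →L[ℝ] ℝ)
  have hc : IsCompact (closedBall (0 : Y →L[ℝ] ℝ) 1) := isCompact_closedBall _ _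
  obtain ⟨t, htsub, htfin, hcov⟩ := hc.finite_cover_balls hε
  classical
  let T : Finset (Y →L[ℝ] ℝ) := htfin.toFinset
  let e : Fin T.card ≃ T := T.equivFin.symm
  let b : Fin T.card → EuclideanSpace ℝ (Fin n) := fun i =>
    (InnerProductSpace.toDual ℝ (EuclideanSpace ℝ (Fin n))).symm
      (((e i : Y →L[ℝ] ℝ)).comp (L : EuclideanSpace ℝ (Fin n) →L[ℝ] Y))
  have hb : ∀ i x, (inner ℝ (b i) x : ℝ) = (e i : Y →L[ℝ] ℝ) (L x) := by
    intro i x
    simp only [b, InnerProductSpace.toDual_symm_apply]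
    rfl
  refine ⟨T.card, b, fun x => ⟨?_, ?_⟩⟩
  · obtain ⟨f, hf1, hf2⟩ := exists_dual_vector'' ℝ (L x)
    have hfm : f ∈ closedBall (0 : Y →L[ℝ] ℝ) 1 := by
      simpa [mem_closedBall, dist_zero_right] using hf1
    have := hcov hfm
    simp only [Set.mem_iUnion, mem_ball, exists_prop] at this
    obtain ⟨l, hl, hfl⟩ := this
    have hlT : l ∈ T := htfin.mem_toFinset.2 hl
    have hi := norm_le_pi_norm (fun i : Fin T.card => (inner ℝ (b i) x : ℝ)) (e.symm ⟨l, hlT⟩)
    refine le_trans ?_ hi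
    rw [hb, Equiv.apply_symm_apply, Real.norm_eq_abs]
    have h1 : |f (L x) - l (L x)| ≤ ε * ‖L x‖ := by
      have := (f - l).le_opNorm (L x)
      rw [Real.norm_eq_abs, ContinuousLinearMap.sub_apply] at this
      refine this.trans ?_
      refine mul_le_mul_of_nonneg_right ?_ (norm_nonneg _)
      rw [← dist_eq_norm]
      exact hfl.le
    have h2 : f (L x) = ‖L x‖ := by simpa using hf2
    have h3 := abs_le.1 h1
    have h4 := le_abs_self (l (L x))
    have h5 : (1 - ε) * ‖L x‖ ≤ l (L x) := by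
      rw [h2] at h3
      nlinarith [h3.2]
    exact h5.trans h4
  · rw [pi_norm_le_iff_of_nonneg (norm_nonneg _)]
    intro i
    rw [hb]
    have hmem : ((e i : Y →L[ℝ] ℝ)) ∈ t := htfin.mem_toFinset.1 (e i).2
    have hn : ‖(e i : Y →L[ℝ] ℝ)‖ ≤ 1 := by
      simpa [mem_closedBall, dist_zero_right] using htsub hmem
    refine ((e i : Y →L[ℝ] ℝ).le_opNorm (L x)).trans ?_
    simpa using mul_le_mul_of_nonneg_right hn (norm_nonneg (L x))

end Pool.Agent.Helper94.PB
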