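import Pool.Agent.Helper42.PB.NSP
import Pool.Agent.Helper42.PB.SLG
import Pool.Agent.Helper64.PP.PEXT
import Pool.Agent.Helper79.PP.PVIS
import Pool.Agent.Helper22.PP.POMG

/-!
# Project B (MP_fc6b1e_nt): local lemmas for V_EXT
-/

set_option autoImplicit false

namespace Pool.Agent.Helper94.PB

open NumberField Polynomial Module IsDedekindDomain Pool.Agent.Helper51.SigLeo
open Pool.Agent.Helper51.RP Pool.Agent.Helper42.RD Pool.Agent.Helper42.PP
open Pool.Agent.Helper42.PP1 (SitW)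
open Pool.Agent.Helper42.PB
open Pool.Agent.Helper40.RS (bel gw bel_smul lies conj_of_bel free_gw absNorm_free val_smul efg)
open Pool.Agent.Helper40.RD (bel_of_above ordW valW)
open Pool.Agent.Helper13.RD (eq_gw eq_of_val)
open scoped Pointwise

section galois

variable {F E : Type} [Field F] [NumberField F] [Field E] [NumberField E] [Algebra F E]
  [IsGalois F E]

/-- A ramified prime has a nontrivial inertia group. -/
theorem exists_inertia (W : HeightOneSpectrum (𝓞 E))
    (h : (bel F W).asIdeal.ramificationIdx' W.asIdeal ≠ 1) :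
    ∃ σ : E ≃ₐ[F] E, σ ≠ 1 ∧ ∀ x : 𝓞 E, σ • x - x ∈ W.asIdeal := by
  have hmax : (bel F W).asIdeal.IsMaximal := (bel F W).isMaximal
  have hfin : Finite (𝓞 F ⧸ (bel F W).asIdeal) :=
    (bel F W).asIdeal.finiteQuotientOfFreeOfNeBot (bel F W).ne_bot
  have hfin2 : Finite (bel F W).asIdeal.ResidueField :=
    Finite.of_surjective _
      (Ideal.bijective_algebraMap_quotient_residueField (bel F W).asIdeal).2
  have h1 := Ideal.card_inertia_eq_ramificationIdxIn (G := E ≃ₐ[F] E) (bel F W).asIdeal W.asIdeal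
  rw [Ideal.ramificationIdxIn_eq_ramificationIdx (bel F W).asIdeal W.asIdeal (E ≃ₐ[F] E),
    ← Ideal.ramificationIdx'_eq_ramificationIdx _ _ (bel F W).ne_bot] at h1
  by_contra hcon
  push Not at hcon
  apply h
  rw [← h1]
  rw [Nat.card_eq_one_iff_unique]
  refine ⟨⟨fun a b => ?_⟩, ⟨1⟩⟩
  have h3 : ∀ a : W.asIdeal.inertia (E ≃ₐ[F] E), (a : E ≃ₐ[F] E) = 1 := by
    intro a
    by_contra hne
    obtain ⟨x, hx⟩ := hcon a hne
    exact hx (a.2 x)
  exact Subtype.ext ((h3 a).trans (h3 b).symm)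

/-- An element of the inertia group preserves the valuation. -/
theorem val_of_inertia (W : HeightOneSpectrum (𝓞 E)) (σ : E ≃ₐ[F] E)
    (hσ : ∀ x : 𝓞 E, σ • x - x ∈ W.asIdeal) (y : E) :
    W.valuation E (σ y) = W.valuation E y := by
  refine val_smul σ W W ?_ y
  have h1 : ∀ τ : E ≃ₐ[F] E, (∀ x : 𝓞 E, τ • x - x ∈ W.asIdeal) →
      ∀ x ∈ W.asIdeal, τ • x ∈ W.asIdeal := by
    intro τ hτ x hx
    have h2 := W.asIdeal.add_mem (hτ x) hx
    rwa [sub_add_cancel] at h2
  have h3 : ∀ x : 𝓞 E, σ⁻¹ • x - x ∈ W.asIdeal := by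
    intro x
    have h4 := hσ (σ⁻¹ • x)
    rw [smul_inv_smul] at h4
    have h5 := W.asIdeal.neg_mem h4
    rwa [neg_sub] at h5
  ext x
  rw [Ideal.mem_pointwise_smul_iff_inv_smul_mem]
  refine ⟨fun hx => ?_, fun hx => h1 _ h3 x hx⟩
  have h6 := h1 σ hσ _ hx
  rwa [smul_inv_smul] at h6

/-- An element of the inertia group acts trivially on the residue field. -/
theorem close_of_inertia (W : HeightOneSpectrum (𝓞 E)) (σ : E ≃ₐ[F] E)
    (hσ : ∀ x : 𝓞 E, σ • x - x ∈ W.asIdeal) {z : E} (hz : W.valuation E z = 1) :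
    W.valuation E (σ z / z - 1) < 1 := by
  obtain ⟨c, hc, hcz⟩ := exists_int_close W hz
  have hvc := val_of_notMem W hc
  have hc0 : (c : E) ≠ 0 := by intro h0; rw [h0, map_zero] at hvc; exact zero_ne_one hvc
  have hz0 : z ≠ 0 := by intro h0; rw [h0, map_zero] at hz; exact zero_ne_one hz
  have h1 : W.valuation E (((σ • c : 𝓞 E) : E) / c - 1) < 1 :=
    val_div_of_sub_mem W hc (hσ c)
  have h2 : W.valuation E ((σ (c / z))⁻¹ - 1) < 1 := by
    refine val_inv_sub W ?_
    have h3 := val_of_inertia W σ hσ (c / z - 1)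
    rw [map_sub, map_one] at h3
    rw [h3]
    exact hcz
  have h3 := val_mul_sub W (val_mul_sub W h2 h1) hcz
  have e : (σ (c / z))⁻¹ * (((σ • c : 𝓞 E) : E) / c) * (c / z) = σ z / z := by
    have e1 : ((σ • c : 𝓞 E) : E) = σ (c : E) := rfl
    have hσc : σ (c : E) ≠ 0 := (map_ne_zero_iff _ σ.injective).2 hc0
    have hσz : σ z ≠ 0 := (map_ne_zero_iff _ σ.injective).2 hz0
    rw [e1, map_div₀]
    field_simp
  rwa [e] at h3

/-- Closeness at `W` only, the other conjugates being small. -/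
theorem exists_small (W : HeightOneSpectrum (𝓞 E)) {y : E} (hy : y ≠ 0) :
    ∃ u : E, W.valuation E (u / y - 1) < 1 ∧ (∀ σ : E ≃ₐ[F] E,
      (∀ z : E, W.valuation E (σ z) = W.valuation E z) →
      W.valuation E (σ u / σ y - 1) < 1) ∧
      ∀ σ : E ≃ₐ[F] E, ¬ (∀ z : E, W.valuation E (σ z) = W.valuation E z) →
      W.valuation E (σ u / y) < 1 := by
  classical
  have hft : Fintype (E ≃ₐ[F] E) := Fintype.ofFinite _
  obtain ⟨e, he⟩ := IsDedekindDomain.exists_forall_sub_mem_ideal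
    (s := Finset.univ.image (fun σ : E ≃ₐ[F] E => gw σ W))
    (fun Q : HeightOneSpectrum (𝓞 E) => Q.asIdeal) (fun _ => 1)
    (fun Q _ => Q.prime) (fun Q _ Q' _ hne h => hne (HeightOneSpectrum.ext h))
    (fun Q => if Q.1 = W then 1 else 0)
  have he' : ∀ σ : E ≃ₐ[F] E, (gw σ W = W → e - 1 ∈ W.asIdeal) ∧
      (gw σ W ≠ W → e ∈ (gw σ W).asIdeal) := by
    intro σ
    have h1 := he (gw σ W) (Finset.mem_image_of_mem _ (Finset.mem_univ σ))
    rw [pow_one] at h1
    refine ⟨fun h => ?_, fun h => ?_⟩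
    · rw [if_pos h, h] at h1
      exact h1
    · rw [if_neg h, sub_zero] at h1
      exact h1
  have heW : e - 1 ∈ W.asIdeal := (he' 1).1 (by
    apply HeightOneSpectrum.ext
    show (1 : E ≃ₐ[F] E) • W.asIdeal = W.asIdeal
    rw [one_smul])
  have hve : W.valuation E ((e : E) - 1) < 1 := by
    have e1 : (e : E) - 1 = ((e - 1 : 𝓞 E) : E) := rfl
    rw [e1]
    exact (W.valuation_lt_one_iff_mem (K := E) _).2 heW
  -- the size at the other primes
  have hN : ∀ σ : E ≃ₐ[F] E, ∃ N : ℕ, ∀ N' : ℕ, N ≤ N' →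
      ¬ (∀ z : E, W.valuation E (σ z) = W.valuation E z) →
      W.valuation E (σ ((e : E) ^ N' * y) / y) < 1 := by
    intro σ
    by_cases hσ : ∀ z : E, W.valuation E (σ z) = W.valuation E z
    · exact ⟨0, fun _ _ h => absurd hσ h⟩
    · have hne : gw σ⁻¹ W ≠ W := by
        intro h
        apply hσ
        intro z
        have h1 := val_smul σ⁻¹ W (gw σ⁻¹ W) rfl (σ z)
        rw [h] at h1
        have h2 : (σ⁻¹ : E ≃ₐ[F] E) (σ z) = z := AlgEquiv.symm_apply_apply σ z
        rw [h2] at h1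
        exact h1.symm
      have hmem := (he' σ⁻¹).2 hne
      have hlt : W.valuation E (σ (e : E)) < 1 := by
        have h1 := val_smul σ⁻¹ W (gw σ⁻¹ W) rfl (σ (e : E))
        have h2 : (σ⁻¹ : E ≃ₐ[F] E) (σ (e : E)) = e := AlgEquiv.symm_apply_apply σ _
        rw [h2] at h1
        rw [← h1]
        exact ((gw σ⁻¹ W).valuation_lt_one_iff_mem (K := E) _).2 hmem
      by_cases h0 : W.valuation E (σ (e : E)) = 0
      · refine ⟨1, fun N' hN' _ => ?_⟩
        rw [map_div₀, map_mul, map_pow, map_mul, map_pow, h0, zero_pow (by omega), zero_mul,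
          zero_div]
        exact zero_lt_one
      · have hy0 : W.valuation E (σ y) ≠ 0 := (Valuation.ne_zero_iff _).2
          ((map_ne_zero_iff _ σ.injective).2 hy)
        have hy1 : W.valuation E y ≠ 0 := (Valuation.ne_zero_iff _).2 hy
        obtain ⟨a, ha⟩ : ∃ a : ℤ, W.valuation E (σ (e : E)) = WithZero.exp a :=
          ⟨_, (WithZero.exp_log h0).symm⟩
        obtain ⟨b, hb⟩ : ∃ b : ℤ, W.valuation E (σ y) = WithZero.exp b :=
          ⟨_, (WithZero.exp_log hy0).symm⟩
        obtain ⟨c, hc⟩ : ∃ c : ℤ, W.valuation E y = WithZero.exp c :=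
          ⟨_, (WithZero.exp_log hy1).symm⟩
        have ha1 : a ≤ -1 := by
          rw [ha, ← WithZero.exp_zero, WithZero.exp_lt_exp] at hlt
          omega
        refine ⟨(b - c).toNat + 1, fun N' hN' _ => ?_⟩
        rw [map_div₀, map_mul, map_pow, map_mul, map_pow, ha, hb, hc, ← WithZero.exp_nsmul,
          ← WithZero.exp_add, ← WithZero.exp_sub, ← WithZero.exp_zero, WithZero.exp_lt_exp]
        have h1 : (b - c) ≤ ((b - c).toNat : ℤ) := Int.self_le_toNat _
        have h2 : (((b - c).toNat + 1 : ℕ) : ℤ) ≤ (N' : ℤ) := by exact_mod_cast hN'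
        push_cast at h2
        have h3 : N' • a = (N' : ℤ) * a := by rw [nsmul_eq_mul]
        rw [h3]
        nlinarith
  choose Nf hNf using hN
  refine ⟨(e : E) ^ (Finset.univ.sup Nf) * y, ?_, ?_, ?_⟩
  · rw [mul_div_assoc, div_self hy, mul_one]
    exact val_pow_sub W hve _
  · intro σ hσ
    have hσy : σ y ≠ 0 := (map_ne_zero_iff _ σ.injective).2 hy
    rw [map_mul, mul_div_assoc, div_self hσy, mul_one, map_pow]
    refine val_pow_sub W ?_ _
    have h1 := hσ ((e : E) - 1)
    rw [map_sub, map_one] at h1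
    rw [h1]
    exact hve
  · intro σ hσ
    exact hNf σ _ (Finset.le_sup (f := Nf) (Finset.mem_univ σ)) hσ

/-- If `y` is fixed by the decomposition group modulo higher terms, it is close to an element of the
base field. -/
theorem exists_fix {p : ℕ} [hp : Fact p.Prime] {l : ℕ} (hcard : Nat.card (E ≃ₐ[F] E) = p ^ l)
    (W : HeightOneSpectrum (𝓞 E)) (hW : W.valuation E (p : E) = 1) {y : E} (hy : y ≠ 0)
    (hD : ∀ σ : E ≃ₐ[F] E, (∀ z : E, W.valuation E (σ z) = W.valuation E z) →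
      W.valuation E (σ y / y - 1) < 1) :
    ∃ x : F, W.valuation E (algebraMap F E x / y - 1) < 1 := by
  classical
  obtain ⟨u, hu1, hu2, hu3⟩ := exists_small (F := F) W hy
  let D : Subgroup (E ≃ₐ[F] E) :=
    { carrier := {σ | ∀ z : E, W.valuation E (σ z) = W.valuation E z}
      mul_mem' := by
        intro a b ha hb z
        show W.valuation E (a (b z)) = _
        rw [ha, hb]
      one_mem' := fun z => rfl
      inv_mem' := by
        intro a ha z
        have h := ha (a⁻¹ z)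
        have h2 : a ((a⁻¹ : E ≃ₐ[F] E) z) = z := AlgEquiv.apply_symm_apply a z
        rw [h2] at h
        exact h.symm }
  have hDm : ∀ σ, σ ∈ D ↔ ∀ z : E, W.valuation E (σ z) = W.valuation E z := fun σ => Iff.rfl
  obtain ⟨n, hn⟩ : ∃ n : ℕ, n = (Finset.univ.filter fun σ : E ≃ₐ[F] E => σ ∈ D).card := ⟨_, rfl⟩
  have hnD : n ∣ p ^ l := by
    rw [← hcard, hn]
    have h1 := Subgroup.card_subgroup_dvd_card D
    rwa [Nat.card_eq_fintype_card, Fintype.card_subtype] at h1
  have hvn : W.valuation E (n : E) = 1 := by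
    obtain ⟨k, -, hk⟩ := (Nat.dvd_prime_pow hp.out).1 hnD
    rw [hk, Nat.cast_pow, map_pow, hW, one_pow]
  have hn0 : (n : E) ≠ 0 := by
    intro h
    rw [h, map_zero] at hvn
    exact zero_ne_one hvn
  have hsum : W.valuation E ((∑ σ : E ≃ₐ[F] E, σ u) / y - n) < 1 := by
    have h1 : (∑ σ : E ≃ₐ[F] E, σ u) / y - n =
        ∑ σ : E ≃ₐ[F] E, (if σ ∈ D then σ u / y - 1 else σ u / y) := by
      have h2 : ∀ σ : E ≃ₐ[F] E, (if σ ∈ D then σ u / y - 1 else σ u / y) =
          σ u / y - (if σ ∈ D then 1 else 0) := by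
        intro σ
        split_ifs
        · rfl
        · rw [sub_zero]
      rw [Finset.sum_congr rfl fun σ _ => h2 σ, Finset.sum_sub_distrib, Finset.sum_div,
        Finset.sum_ite, Finset.sum_const, Finset.sum_const_zero, add_zero, nsmul_eq_mul, mul_one,
        ← hn]
    rw [h1]
    refine Valuation.map_sum_lt _ one_ne_zero fun σ _ => ?_
    split_ifs with h
    · have h3 := val_mul_sub W (hu2 σ h) (hD σ h)
      have hσy : σ y ≠ 0 := (map_ne_zero_iff _ σ.injective).2 hy
      rwa [div_mul_div_cancel₀ hσy] at h3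
    · exact hu3 σ h
  refine ⟨Algebra.trace F E u / n, ?_⟩
  rw [map_div₀, map_natCast, trace_eq_sum_automorphisms]
  have e : (∑ σ : E ≃ₐ[F] E, σ u) / (n : E) / y - 1 = ((∑ σ : E ≃ₐ[F] E, σ u) / y - n) / n := by
    field_simp
  rw [e, map_div₀, hvn, div_one]
  exact hsum

/-- Descent of local powers. -/
theorem locPow_down {p : ℕ} [hp : Fact p.Prime] {l : ℕ} (hcard : Nat.card (E ≃ₐ[F] E) = p ^ l)
    (W : HeightOneSpectrum (𝓞 E)) (hW : W.valuation E (p : E) = 1) {x : F} {y : E}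
    (hxy : W.valuation E (algebraMap F E x * y ^ p - 1) < 1)
    (hD : ∀ σ : E ≃ₐ[F] E, (∀ z : E, W.valuation E (σ z) = W.valuation E z) →
      W.valuation E (σ y / y - 1) < 1) : LocPow p (bel F W) x := by
  have hy : y ≠ 0 := by
    rintro rfl
    rw [zero_pow hp.out.ne_zero, mul_zero, zero_sub, Valuation.map_neg, map_one] at hxy
    exact lt_irrefl _ hxy
  obtain ⟨z, hz⟩ := exists_fix hcard W hW hy hD
  refine ⟨z, ?_⟩
  have h1 := val_mul_sub W hxy (val_pow_sub W hz p)
  have e : algebraMap F E x * y ^ p * (algebraMap F E z / y) ^ p =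
      algebraMap F E (x * z ^ p) := by
    rw [div_pow, map_mul, map_pow]
    field_simp
  rw [e, ← map_one (algebraMap F E), ← map_sub, valW] at h1
  by_contra h2
  rw [not_lt] at h2
  exact absurd h1 (not_lt.2 (one_le_pow_of_one_le' h2 _))

end galois

end Pool.Agent.Helper94.PB
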