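import Pool.Agent.Helper94.PB.VLOC

/-!
# Project B (MP_fc6b1e_nt): local lemmas for V_EXT, II
-/

set_option autoImplicit false
set_option linter.unusedSectionVars false

namespace Pool.Agent.Helper94.PB

open NumberField Polynomial Module IsDedekindDomain Pool.Agent.Helper51.SigLeo
open Pool.Agent.Helper51.RP Pool.Agent.Helper42.RD Pool.Agent.Helper42.PP
open Pool.Agent.Helper42.PP1 (SitW)
open Pool.Agent.Helper42.PB
open Pool.Agent.Helper40.RS (bel gw bel_smul lies conj_of_bel free_gw absNorm_free val_smul efg)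
open Pool.Agent.Helper40.RD (bel_of_above ordW valW)
open Pool.Agent.Helper13.RD (eq_gw eq_of_val)

section conj

variable {p : ℕ} [hp : Fact p.Prime] {F E : Type} [Field F] [Field E] [NumberField E]
  [Algebra F E]

/-- The local condition for an element of type `ω` at conjugate primes. -/
theorem locAt_conj {ε α : E} (hε : IsPrimitiveRoot ε p) (hα0 : α ≠ 0) (hα : OmType p F ε α)
    (g : E ≃ₐ[F] E) {W W' : HeightOneSpectrum (𝓞 E)}
    (hW' : ∀ y : E, W.valuation E (g y) = W'.valuation E y) {x : E} (h : LocAt p W' α x) :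
    LocAt p W α (g x) := by
  have hpp := hp.out
  have hp0 : p ≠ 0 := hpp.ne_zero
  obtain ⟨n, C, hn, hC⟩ := hα g
  have hcop : n.Coprime p := by
    rw [Nat.coprime_comm, hpp.coprime_iff_not_dvd]
    rintro ⟨m, rfl⟩
    rw [pow_mul, hε.pow_eq_one, one_pow] at hn
    have h1 : ε = 1 := by
      apply g.injective
      rw [hn, map_one]
    have h2 := hε
    rw [h1] at h2
    exact hpp.one_lt.ne' (h2.unique IsPrimitiveRoot.one)
  have hC0 : C ≠ 0 := by
    rintro rfl
    rw [zero_pow hp0, mul_zero] at hC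
    exact hα0 ((map_eq_zero g).1 hC)
  have hordA : ordv W' α = n * ordv W α + p * ordv W C := by
    rw [← ordv_conj g hW', hC, ordv_mul W (pow_ne_zero _ hα0) (pow_ne_zero _ hC0), ordv_pow,
      ordv_pow]
  refine ⟨fun hd => ?_, fun hd => ?_⟩
  · rw [ordv_conj g hW']
    apply h.1
    rw [hordA]
    exact dvd_add (hd.mul_left _) (dvd_mul_right _ _)
  · have hd' : ¬ (p : ℤ) ∣ ordv W' α := by
      intro h
      rw [hordA] at h
      have h1 := (Int.dvd_add_left (dvd_mul_right (p : ℤ) _)).1 h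
      have h2 : IsCoprime (p : ℤ) (n : ℤ) := by
        rw [Int.isCoprime_iff_gcd_eq_one]
        exact_mod_cast (Nat.coprime_comm.1 hcop)
      exact hd (h2.dvd_of_dvd_mul_left h1)
    obtain ⟨i, hi⟩ := h.2 hd'
    have h3 := (locPow_conj g hW' _).2 hi
    refine ⟨n * i, ?_⟩
    rw [map_mul, map_pow, map_mul, hC] at h3
    have e : g x * (g ((-1) ^ (p - 1)) * (α ^ n * C ^ p)) ^ i =
        g x * ((-1) ^ (p - 1) * α) ^ (n * i) * (C ^ i) ^ p := by
      have e1 : g ((-1) ^ (p - 1)) = ((-1) ^ (p - 1) : E) ^ n := by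
        rw [map_pow, map_neg, map_one]
        exact Pool.Agent.Helper8.PP.neg_one_pow_pow hpp hcop
      rw [e1, pow_mul, mul_pow (_ : E) _ n]
      ring
    rw [e] at h3
    exact (locPow_mul_pth W (pow_ne_zero _ hC0)).1 h3

/-- An automorphism which preserves `W` fixes `ε` if the valuation of `α` at `W` is prime to `p`. -/
theorem fix_eps {ε α : E} (hε : IsPrimitiveRoot ε p) (hα0 : α ≠ 0) (hα : OmType p F ε α)
    (g : E ≃ₐ[F] E) {W : HeightOneSpectrum (𝓞 E)}
    (hW : ∀ y : E, W.valuation E (g y) = W.valuation E y) (hd : ¬ (p : ℤ) ∣ ordv W α) :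
    g ε = ε := by
  have hpp := hp.out
  have hp0 : p ≠ 0 := hpp.ne_zero
  obtain ⟨n, C, hn, hC⟩ := hα g
  have hC0 : C ≠ 0 := by
    rintro rfl
    rw [zero_pow hp0, mul_zero] at hC
    exact hα0 ((map_eq_zero g).1 hC)
  have hordA : ordv W α = n * ordv W α + p * ordv W C := by
    have h1 := ordv_conj g hW α
    rw [hC, ordv_mul W (pow_ne_zero _ hα0) (pow_ne_zero _ hC0), ordv_pow, ordv_pow] at h1
    exact h1.symm
  have h1 : (p : ℤ) ∣ ((n : ℤ) - 1) * ordv W α := ⟨- ordv W C, by linear_combination -hordA⟩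
  have h2 : (p : ℤ) ∣ (n : ℤ) - 1 :=
    ((Nat.prime_iff_prime_int.1 hpp).dvd_or_dvd h1).resolve_right hd
  have h3 := (hε.zpow_eq_one_iff_dvd _).2 h2
  rw [zpow_sub₀ (hε.ne_zero hp0), zpow_natCast, zpow_one] at h3
  rw [hn]
  exact (div_eq_one_iff_eq (hε.ne_zero hp0)).1 h3

end conj

section lift

variable {K A C : Type} [Field K] [NumberField K] [Field A] [NumberField A] [Field C]
  [NumberField C] [Algebra K A] [Algebra A C] [Algebra K C] [IsScalarTower K A C]
  [IsGalois K A] [IsGalois K C]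

/-- An automorphism which preserves the prime below can be lifted to one which preserves `W`. -/
theorem lift_dec (W : HeightOneSpectrum (𝓞 C)) (g : A ≃ₐ[K] A)
    (hg : ∀ y : A, (bel A W).valuation A (g y) = (bel A W).valuation A y) :
    ∃ g' : C ≃ₐ[K] C, (∀ y : C, W.valuation C (g' y) = W.valuation C y) ∧
      ∀ x : A, g' (algebraMap A C x) = algebraMap A C (g x) := by
  have hG : IsGalois A C := IsGalois.tower_top_of_isGalois K A C
  obtain ⟨g', hg'⟩ : ∃ g' : C ≃ₐ[K] C, ∀ x : A, g' (algebraMap A C x) = algebraMap A C (g x) :=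
    ⟨g.liftNormal C, fun x => AlgEquiv.liftNormal_commutes g C x⟩
  have hv : ∀ y : C, (gw g' W).valuation C (g' y) = W.valuation C y :=
    fun y => val_smul g' W (gw g' W) rfl y
  have h1 : bel A (gw g' W) = bel A W := by
    apply HeightOneSpectrum.ext
    ext x
    rw [Pool.Agent.Helper79.PP.mem_bel, Pool.Agent.Helper79.PP.mem_bel]
    have h2 : algebraMap A C (x : A) = g' (algebraMap A C (g⁻¹ (x : A))) := by
      rw [hg']
      congr 1
      show (x : A) = (g * g⁻¹) (x : A)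
      rw [mul_inv_cancel]
      rfl
    have h3 : W.valuation C (algebraMap A C (g⁻¹ (x : A))) =
        W.valuation C (algebraMap A C (x : A)) := by
      rw [valW, valW, ← hg (g⁻¹ (x : A))]
      have h4 : g (g⁻¹ (x : A)) = (x : A) := by
        show (g * g⁻¹) (x : A) = (x : A)
        rw [mul_inv_cancel]
        rfl
      rw [h4]
    conv_lhs => rw [h2, hv, h3]
  obtain ⟨h, hh⟩ := conj_of_bel' (K := A) h1
  -- `hh : gw g' W (h y) = W y`
  refine ⟨(h.restrictScalars K)⁻¹ * g', fun y => ?_, fun x => ?_⟩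
  · rw [← hh, ← hv y]
    congr 1
    show ((h.restrictScalars K) * ((h.restrictScalars K)⁻¹ * g')) y = g' y
    rw [mul_inv_cancel_left]
  · show (h.restrictScalars K)⁻¹ (g' (algebraMap A C x)) = _
    rw [hg' x]
    have h2 : (h.restrictScalars K) (algebraMap A C (g x)) = algebraMap A C (g x) :=
      h.commutes (g x)
    have h3 : (h.restrictScalars K)⁻¹ ((h.restrictScalars K) (algebraMap A C (g x))) =
        algebraMap A C (g x) := by
      show ((h.restrictScalars K)⁻¹ * (h.restrictScalars K)) _ = _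
      rw [inv_mul_cancel]
      rfl
    rwa [h2] at h3

end lift

section main

variable {p : ℕ} [hp : Fact p.Prime] {K M K₁ M₁ J M₂ : Type} [Field K] [NumberField K] [Field M]
  [NumberField M] [Field K₁] [NumberField K₁] [Field M₁] [NumberField M₁] [Field J]
  [NumberField J] [Field M₂] [NumberField M₂] [Algebra K M] [Algebra K K₁] [Algebra K M₁]
  [Algebra M M₁] [Algebra K₁ M₁] [Algebra K J] [Algebra K M₂] [Algebra M M₂] [Algebra K₁ M₂]
  [Algebra M₁ M₂] [Algebra J M₂] {ε : K₁} {δ : M ≃ₐ[K] M} {P : (ZMod p)[X]} {a₀ : M₂ˣ}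

/-- The key computation of `no_locPow`. -/
theorem no_close (hB : SitB p K M K₁ M₁ J M₂ ε δ P a₀) (W : HeightOneSpectrum (𝓞 M₂))
    (hW : W.valuation M₂ (p : M₂) = 1) (σ : M₂ ≃ₐ[K] M₂)
    (h1 : ∀ x : M₁, σ (algebraMap M₁ M₂ x) = algebraMap M₁ M₂ x) (h2 : σ ≠ 1)
    (hσ : ∀ y : M₂, W.valuation M₂ (σ y) = W.valuation M₂ y) {c y : M₂}
    (hc : σ (a₀ : M₂) = (a₀ : M₂) * c ^ p) (hy0 : y ≠ 0) :
    ¬ W.valuation M₂ ((c * (σ y / y)) ^ p - 1) < 1 := by
  intro h4
  have hp0 : p ≠ 0 := hp.out.ne_zero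
  have := hB.t3
  have hε : σ (algebraMap K₁ M₂ ε) = algebraMap K₁ M₂ ε := by
    rw [IsScalarTower.algebraMap_apply K₁ M₁ M₂, h1]
  have hprim₂ : IsPrimitiveRoot (algebraMap K₁ M₂ ε) p :=
    hB.sit.prim.map_of_injective (algebraMap K₁ M₂).injective
  obtain ⟨i, hi⟩ := root_close W hprim₂ h4
  -- the norm
  have hσs : ∀ (s : ℕ) (z : M₂), W.valuation M₂ ((σ ^ s) z) = W.valuation M₂ z := by
    intro s
    induction s with
    | zero => intro z; rfl
    | succ s ih =>
      intro z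
      rw [pow_succ]
      show W.valuation M₂ ((σ ^ s) (σ z)) = _
      rw [ih, hσ]
  have hσε : ∀ s : ℕ, (σ ^ s) (algebraMap K₁ M₂ ε) = algebraMap K₁ M₂ ε := by
    intro s
    induction s with
    | zero => rfl
    | succ s ih =>
      rw [pow_succ]
      show (σ ^ s) (σ _) = _
      rw [hε, ih]
  set n : ℕ := orderOf σ with hn
  have hpn : p ∣ n := dvd_order hB σ h1 h2
  have h5 : W.valuation M₂ (∏ s ∈ Finset.range n,
      (σ ^ s) (c * (σ y / y) * ((algebraMap K₁ M₂ ε) ^ i)⁻¹) - 1) < 1 := by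
    have h6 : ∀ m : ℕ, W.valuation M₂ (∏ s ∈ Finset.range m,
        (σ ^ s) (c * (σ y / y) * ((algebraMap K₁ M₂ ε) ^ i)⁻¹) - 1) < 1 := by
      intro m
      induction m with
      | zero => rw [Finset.range_zero, Finset.prod_empty, sub_self, map_zero]; exact zero_lt_one
      | succ m ih =>
        rw [Finset.prod_range_succ]
        refine val_mul_sub W ih ?_
        have h7 := hσs m (c * (σ y / y) * ((algebraMap K₁ M₂ ε) ^ i)⁻¹ - 1)
        rw [map_sub, map_one] at h7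
        rw [h7]
        exact hi
    exact h6 n
  have h6 : ∏ s ∈ Finset.range n, (σ ^ s) (c * (σ y / y) * ((algebraMap K₁ M₂ ε) ^ i)⁻¹) =
      ∏ s ∈ Finset.range n, (σ ^ s) c := by
    have e1 : ∀ s : ℕ, (σ ^ s) (c * (σ y / y) * ((algebraMap K₁ M₂ ε) ^ i)⁻¹) =
        (σ ^ s) c * (σ ^ s) (σ y / y) * ((algebraMap K₁ M₂ ε) ^ i)⁻¹ := by
      intro s
      rw [map_mul, map_mul, map_inv₀, map_pow, hσε]
    rw [Finset.prod_congr rfl fun s _ => e1 s, Finset.prod_mul_distrib, Finset.prod_mul_distrib,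
      prod_tele σ hy0, Finset.prod_const, Finset.card_range, hn, pow_orderOf_eq_one]
    obtain ⟨q, hq⟩ := hpn
    have e2 : (((algebraMap K₁ M₂ ε) ^ i)⁻¹) ^ (orderOf σ) = 1 := by
      rw [← hn, hq, inv_pow, ← pow_mul, show i * (p * q) = p * (i * q) by ring, pow_mul,
        hprim₂.pow_eq_one, one_pow, inv_one]
    rw [e2]
    show _ * (y / y) * 1 = _
    rw [div_self hy0, mul_one, mul_one]
  rw [h6] at h5
  have h7 : (∏ s ∈ Finset.range n, (σ ^ s) c) ^ p = 1 := by
    have h8 := prod_tele σ a₀.ne_zero n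
    rw [hn, pow_orderOf_eq_one] at h8
    have h9 : (1 : M₂ ≃ₐ[K] M₂) (a₀ : M₂) / (a₀ : M₂) = 1 := div_self a₀.ne_zero
    rw [h9, hc, mul_div_cancel_left₀ _ a₀.ne_zero] at h8
    rw [← Finset.prod_pow, ← h8, ← hn]
    exact Finset.prod_congr rfl fun s _ => by rw [map_pow]
  exact hB.cyc σ h1 h2 c hc (one_of_close W h7 h5 hW)

/-- If `W` is ramified over `M₁` then the valuation of `a₀ a` is prime to `p`. -/
theorem ord_of_ram (hB : SitB p K M K₁ M₁ J M₂ ε δ P a₀) (W : HeightOneSpectrum (𝓞 M₂))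
    (hW : W.valuation M₂ (p : M₂) = 1)
    (hr : (bel M₁ W).asIdeal.ramificationIdx' W.asIdeal ≠ 1) (a : K₁ˣ) :
    ¬ (p : ℤ) ∣ ordv W ((a₀ : M₂) * algebraMap K₁ M₂ (a : K₁)) := by
  rintro ⟨q, hq⟩
  have := hB.t1
  have := hB.t3
  have := hB.gM₂
  have hG : IsGalois M₁ M₂ := IsGalois.tower_top_of_isGalois K M₁ M₂
  obtain ⟨σ₁, hσ1, hσ⟩ := exists_inertia (F := M₁) W hr
  obtain ⟨π, hπ⟩ := W.valuation_exists_uniformizer M₂
  have hπ0 : π ≠ 0 := by
    rintro rfl
    rw [map_zero] at hπ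
    exact WithZero.exp_ne_zero hπ.symm
  have hoπ : ordv W π = 1 := by
    unfold ordv
    rw [hπ, WithZero.log_exp, neg_neg]
  set α : M₂ := (a₀ : M₂) * algebraMap K₁ M₂ (a : K₁) with hα
  have hA0 : algebraMap K₁ M₂ (a : K₁) ≠ 0 := (_root_.map_ne_zero _).2 a.ne_zero
  have hα0 : α ≠ 0 := mul_ne_zero a₀.ne_zero hA0
  have hy0 : π ^ (-q) ≠ 0 := zpow_ne_zero _ hπ0
  set y : M₂ := π ^ (-q) with hy
  have hz0 : α * y ^ p ≠ 0 := mul_ne_zero hα0 (pow_ne_zero _ hy0)
  have hz : W.valuation M₂ (α * y ^ p) = 1 := by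
    rw [← ordv_eq_zero_iff W hz0, ordv_mul W hα0 (pow_ne_zero _ hy0), ordv_pow, hy,
      ordv_zpow W hπ0, hoπ, hq]
    ring
  have h1 := close_of_inertia W σ₁ hσ hz
  set σ : M₂ ≃ₐ[K] M₂ := σ₁.restrictScalars K with hσdef
  have hσσ : ∀ z : M₂, σ z = σ₁ z := fun z => rfl
  have hfix : ∀ x : M₁, σ (algebraMap M₁ M₂ x) = algebraMap M₁ M₂ x := fun x => σ₁.commutes x
  have hne : σ ≠ 1 := by
    intro h
    apply hσ1
    apply AlgEquiv.ext
    intro x
    exact congrArg (fun τ : M₂ ≃ₐ[K] M₂ => τ x) h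
  have hval : ∀ z : M₂, W.valuation M₂ (σ z) = W.valuation M₂ z :=
    fun z => val_of_inertia W σ₁ hσ z
  have hε : σ (algebraMap K₁ M₂ ε) = algebraMap K₁ M₂ ε := by
    rw [IsScalarTower.algebraMap_apply K₁ M₁ M₂, hfix]
  obtain ⟨c, hc0, hc⟩ := om_fix hB σ hε
  refine no_close hB W hW σ hfix hne hval hc hy0 ?_
  have e : σ₁ (α * y ^ p) / (α * y ^ p) = (c * (σ y / y)) ^ p := by
    rw [← hσσ, map_mul, hα, map_mul, hc, map_pow, IsScalarTower.algebraMap_apply K₁ M₁ M₂, hfix,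
      ← IsScalarTower.algebraMap_apply K₁ M₁ M₂, mul_pow, div_pow]
    have := a₀.ne_zero
    field_simp
  rwa [e] at h1

end main

end Pool.Agent.Helper94.PB
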